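import Mathlib

/-!
# Two windows on which a completely multiplicative function is constant: the algebra
-/

set_option autoImplicit false

namespace Pool.Agent.Helper53.RW

universe w

theorem exists_y (x D s : ℝ) (hx : 0 ≤ x) (hD : 0 ≤ D) (u k : ℕ) (hu : 1 ≤ u)
    (h : |D * u - k * x| ≤ u * (s - u - k)) :
    ∃ y : ℕ, x < (u : ℝ) * y ∧ (u : ℝ) * y ≤ x + s ∧ x + D < ((u : ℝ) + k) * y ∧
      ((u : ℝ) + k) * y ≤ x + D + s := by
  have hu0 : (0 : ℝ) < u := by exact_mod_cast hu
  have hk0 : (0 : ℝ) ≤ k := Nat.cast_nonneg k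
  have huk : (0 : ℝ) < (u : ℝ) + k := by linarith
  obtain ⟨h1, h2⟩ := abs_le.mp h
  have hs : (u : ℝ) + k ≤ s := by
    by_contra hc
    push Not at hc
    have h3 : (u : ℝ) * (s - u - k) < 0 := mul_neg_of_pos_of_neg hu0 (by linarith)
    have h4 := abs_nonneg (D * u - k * x)
    linarith
  have hs0 : 0 ≤ s := by linarith
  have hsk : 0 ≤ s * k := mul_nonneg hs0 hk0
  rcases le_total (x / u) ((x + D) / (u + k)) with hc | hc
  · obtain ⟨q, hq⟩ : ∃ q : ℝ, q = (x + D) / (u + k) := ⟨_, rfl⟩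
    rw [← hq] at hc
    have e : q * (u + k) = x + D := by rw [hq]; exact div_mul_cancel₀ _ huk.ne'
    have e2 : (u : ℝ) * (q * (u + k)) = u * (x + D) := by rw [e]
    have hq0 : 0 ≤ q := by rw [hq]; positivity
    have f1 := Nat.lt_floor_add_one q
    have f2 := Nat.floor_le hq0
    refine ⟨⌊q⌋₊ + 1, ?_, ?_, ?_, ?_⟩
    · push_cast
      have h3 : x / u < (⌊q⌋₊ : ℝ) + 1 := lt_of_le_of_lt hc f1
      rw [div_lt_iff₀ hu0] at h3
      linarith
    · push_cast
      have h3 : (u : ℝ) * ((⌊q⌋₊ : ℝ) + 1) ≤ u * (q + 1) :=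
        mul_le_mul_of_nonneg_left (by linarith) hu0.le
      have h4 : (u : ℝ) * (q + 1) ≤ x + s := by
        refine le_of_mul_le_mul_right ?_ huk
        nlinarith [e2, h2, hsk]
      linarith
    · push_cast
      have h3 : q * (u + k) < ((⌊q⌋₊ : ℝ) + 1) * (u + k) := mul_lt_mul_of_pos_right f1 huk
      linarith
    · push_cast
      have h3 : ((u : ℝ) + k) * ((⌊q⌋₊ : ℝ) + 1) ≤ (u + k) * (q + 1) :=
        mul_le_mul_of_nonneg_left (by linarith) huk.le
      linarith
  · obtain ⟨q, hq⟩ : ∃ q : ℝ, q = x / u := ⟨_, rfl⟩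
    rw [← hq] at hc
    have e : q * u = x := by rw [hq]; exact div_mul_cancel₀ _ hu0.ne'
    have e2 : (k : ℝ) * (q * u) = k * x := by rw [e]
    have hq0 : 0 ≤ q := by rw [hq]; positivity
    have f1 := Nat.lt_floor_add_one q
    have f2 := Nat.floor_le hq0
    refine ⟨⌊q⌋₊ + 1, ?_, ?_, ?_, ?_⟩
    · push_cast
      have h3 : q * u < ((⌊q⌋₊ : ℝ) + 1) * u := mul_lt_mul_of_pos_right f1 hu0
      linarith
    · push_cast
      have h3 : (u : ℝ) * ((⌊q⌋₊ : ℝ) + 1) ≤ u * (q + 1) :=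
        mul_le_mul_of_nonneg_left (by linarith) hu0.le
      linarith
    · push_cast
      have h3 : (x + D) / (u + k) < (⌊q⌋₊ : ℝ) + 1 := lt_of_le_of_lt hc f1
      rw [div_lt_iff₀ huk] at h3
      linarith
    · push_cast
      have h3 : ((u : ℝ) + k) * ((⌊q⌋₊ : ℝ) + 1) ≤ (u + k) * (q + 1) :=
        mul_le_mul_of_nonneg_left (by linarith) huk.le
      have h4 : ((u : ℝ) + k) * (q + 1) ≤ x + D + s := by
        refine le_of_mul_le_mul_right ?_ hu0
        nlinarith [e2, h1, e]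
      linarith

theorem good {G : Type w} [CommGroup G] (f : ℕ → G)
    (hf : ∀ a b : ℕ, a ≠ 0 → b ≠ 0 → f (a * b) = f a * f b) (x D s : ℝ) (hx : 0 ≤ x) (hD : 0 ≤ D)
    (a a' : G) (hW : ∀ m : ℕ, x < m → (m : ℝ) ≤ x + s → f m = a)
    (hW' : ∀ m : ℕ, x + D < m → (m : ℝ) ≤ x + D + s → f m = a') (u k : ℕ) (hu : 1 ≤ u)
    (h : |D * u - k * x| ≤ u * (s - u - k)) : f (u + k) = a' / a * f u := by
  obtain ⟨y, y1, y2, y3, y4⟩ := exists_y x D s hx hD u k hu h
  have hy : y ≠ 0 := by
    rintro rfl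
    simp at y1
    linarith
  have e1 : f u * f y = a := by
    rw [← hf u y (by omega) hy]
    exact hW _ (by push_cast; exact y1) (by push_cast; exact y2)
  have e2 : f (u + k) * f y = a' := by
    rw [← hf (u + k) y (by omega) hy]
    exact hW' _ (by push_cast; exact y3) (by push_cast; exact y4)
  rw [← e1, ← e2, mul_comm (f u) (f y), ← div_div, mul_div_cancel_right, div_mul_cancel]

theorem jstep {G : Type w} [CommGroup G] (f : ℕ → G)
    (hf : ∀ a b : ℕ, a ≠ 0 → b ≠ 0 → f (a * b) = f a * f b) (c : G) (k j z : ℕ) (hj : 1 ≤ j)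
    (hz : 1 ≤ z) (h : ∀ i < j, f (j * z + i * k + k) = c * f (j * z + i * k)) :
    f (z + k) = c ^ j * f z := by
  have key : ∀ i ≤ j, f (j * z + i * k) = c ^ i * f (j * z) := by
    intro i
    induction i with
    | zero => intro _; simp
    | succ i ih =>
      intro hi
      have h1 := ih (by omega)
      have h2 := h i (by omega)
      rw [show j * z + (i + 1) * k = j * z + i * k + k by ring, h2, h1, pow_succ', mul_assoc]
  have h1 := key j le_rfl
  rw [show j * z + j * k = j * (z + k) by ring, hf j (z + k) (by omega) (by omega),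
    hf j z (by omega) (by omega)] at h1
  have h2 : f j * f (z + k) = f j * (c ^ j * f z) := by
    rw [h1]
    exact mul_left_comm _ _ _
  exact mul_left_cancel h2

theorem chain {G : Type w} [CommGroup G] (f : ℕ → G)
    (hf : ∀ a b : ℕ, a ≠ 0 → b ≠ 0 → f (a * b) = f a * f b) (c : G) (k j z t : ℕ) (hj : 1 ≤ j)
    (hz : 1 ≤ z)
    (h : ∀ l < t, ∀ i < j, f (j * (z + l * k) + i * k + k) = c * f (j * (z + l * k) + i * k)) :
    f (z + t * k) = c ^ (j * t) * f z := by
  induction t with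
  | zero => simp
  | succ t ih =>
    have h1 := ih (fun l hl i hi => h l (by omega) i hi)
    have h2 := jstep f hf c k j (z + t * k) hj (by omega) (fun i hi => h t (by omega) i hi)
    rw [show z + (t + 1) * k = z + t * k + k by ring, h2, h1, ← mul_assoc, ← pow_add]
    congr 2
    ring

theorem key {G : Type w} [CommGroup G] (f : ℕ → G)
    (hf : ∀ a b : ℕ, a ≠ 0 → b ≠ 0 → f (a * b) = f a * f b) (c : G) (J m z k k' : ℕ) (hJ : 1 ≤ J)
    (hz : 1 ≤ z) (hk : k + 1 = J * m) (hk' : k' + 1 = (J + 1) * m)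
    (h1 : ∀ v ≤ J * (J + 1) ^ 2 * m, f (J * z + v + k) = c * f (J * z + v))
    (h2 : ∀ v ≤ J * (J + 1) ^ 2 * m, f ((J + 1) * z + v + k') = c * f ((J + 1) * z + v)) :
    f (z + (J + 1) * k) = f (z + (J + 1) * k + 1) := by
  have e1 : f (z + (J + 1) * k) = c ^ (J * (J + 1)) * f z := by
    refine chain f hf c k J z (J + 1) hJ hz fun l hl i hi => ?_
    have hb : (J * l + i) * k ≤ J * (J + 1) ^ 2 * m := by
      have b1 : J * l + i ≤ J * (J + 1) := by nlinarith
      have b2 : k ≤ (J + 1) * m := by nlinarith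
      calc (J * l + i) * k ≤ (J * (J + 1)) * ((J + 1) * m) := Nat.mul_le_mul b1 b2
        _ = J * (J + 1) ^ 2 * m := by ring
    have := h1 _ hb
    rw [show J * (z + l * k) + i * k = J * z + (J * l + i) * k by ring]
    exact this
  have e2 : f (z + J * k') = c ^ ((J + 1) * J) * f z := by
    refine chain f hf c k' (J + 1) z J (by omega) hz fun l hl i hi => ?_
    have hb : ((J + 1) * l + i) * k' ≤ J * (J + 1) ^ 2 * m := by
      have b1 : (J + 1) * l + i ≤ J * (J + 1) := by
        have : (J + 1) * l ≤ (J + 1) * (J - 1) := Nat.mul_le_mul_left _ (by omega)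
        have h3 : (J + 1) * (J - 1) + J + 1 = J * (J + 1) := by
          obtain ⟨J', rfl⟩ : ∃ J', J = J' + 1 := ⟨J - 1, by omega⟩
          simp only [Nat.add_sub_cancel]
          ring
        omega
      have b2 : k' ≤ (J + 1) * m := by omega
      calc ((J + 1) * l + i) * k' ≤ (J * (J + 1)) * ((J + 1) * m) := Nat.mul_le_mul b1 b2
        _ = J * (J + 1) ^ 2 * m := by ring
    have := h2 _ hb
    rw [show (J + 1) * (z + l * k') + i * k' = (J + 1) * z + ((J + 1) * l + i) * k' by ring]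
    exact this
  have e3 : J * k' = (J + 1) * k + 1 := by
    have h3 : J * (k' + 1) = J * ((J + 1) * m) := by rw [hk']
    have h4 : (J + 1) * (k + 1) = (J + 1) * (J * m) := by rw [hk]
    nlinarith
  rw [e1, show z + (J + 1) * k + 1 = z + J * k' by omega, e2, mul_comm (J + 1) J]

end Pool.Agent.Helper53.RW
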