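import Mathlib
import Pool.Agent.Helper53.RW.Alg

/-!
# Two windows at distance `h √x` with bounded `h > 1 / κ`
-/

set_option autoImplicit false

namespace Pool.Agent.Helper53.RW

universe w

/-- Here `x = h² B²`, `D = h² B`, `s = κ h B`, so that `r = √x = h B` and `D = h r`. -/
theorem near {G : Type w} [CommGroup G] (f : ℕ → G)
    (hf : ∀ a b : ℕ, a ≠ 0 → b ≠ 0 → f (a * b) = f a * f b) (κ ε δ h H B : ℝ)
    (hε : 0 < ε) (hε1 : ε ≤ 1) (hδ : 0 < δ) (hδ1 : 4 * δ ≤ ε) (hδH : 4 * (δ * H ^ 2) ≤ ε)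
    (hh : 0 < h) (hhκ : 1 + ε ≤ κ * h) (hhH : h ≤ H) (j : ℕ) (hj : 1 ≤ j) (hjδ : 2 ≤ j * δ)
    (hB1 : 4 ≤ ε * B) (hBj : 2 * (2 * j + 1) ≤ 3 * (δ * B)) (a a' : G)
    (hW : ∀ m : ℕ, h ^ 2 * B ^ 2 < m → (m : ℝ) ≤ h ^ 2 * B ^ 2 + κ * h * B → f m = a)
    (hW' : ∀ m : ℕ, h ^ 2 * B ^ 2 + h ^ 2 * B < m →
      (m : ℝ) ≤ h ^ 2 * B ^ 2 + h ^ 2 * B + κ * h * B → f m = a') :
    ∀ u : ℕ, (1 - δ) * B ≤ u → (u : ℝ) ≤ (1 + δ) * B → f (u + 1) = f u := by
  have hB0 : 0 < B := by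
    by_contra hcon
    push Not at hcon
    have : ε * B ≤ 0 := mul_nonpos_of_nonneg_of_nonpos hε.le hcon
    linarith
  have hδ4 : δ ≤ 1 / 4 := by linarith
  have hjr : (1 : ℝ) ≤ j := by exact_mod_cast hj
  have hj0 : (0 : ℝ) < j := by linarith
  have hB4 : 4 ≤ B := by
    have : ε * B ≤ 1 * B := mul_le_mul_of_nonneg_right hε1 hB0.le
    linarith
  have hδB : δ * B ≤ 1 / 4 * B := mul_le_mul_of_nonneg_right hδ4 hB0.le
  have hgood : ∀ u : ℕ, (1 - δ) * B ≤ u → (u : ℝ) ≤ (1 + δ) * B → f (u + 1) = a' / a * f u := by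
    intro u h1 h2
    have hu3 : 3 / 4 * B ≤ u := by linarith
    have hu0 : 1 ≤ u := by
      have : (0 : ℝ) < u := by linarith
      exact_mod_cast this
    refine good f hf (h ^ 2 * B ^ 2) (h ^ 2 * B) (κ * h * B) (by positivity) (by positivity) a a'
      hW hW' u 1 hu0 ?_
    have e1 : h ^ 2 * B * u - ((1 : ℕ) : ℝ) * (h ^ 2 * B ^ 2) = h ^ 2 * B * (u - B) := by
      push_cast; ring
    have hpos : 0 < h ^ 2 * B := by positivity
    rw [e1, abs_mul, abs_of_pos hpos]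
    have e2 : |(u : ℝ) - B| ≤ δ * B := by
      rw [abs_le]
      constructor <;> linarith
    have e3 : h ^ 2 * B * |(u : ℝ) - B| ≤ h ^ 2 * B * (δ * B) :=
      mul_le_mul_of_nonneg_left e2 hpos.le
    have e4 : h ^ 2 ≤ H ^ 2 := pow_le_pow_left₀ hh.le hhH 2
    have e5 : h ^ 2 * B * (δ * B) ≤ ε / 4 * B ^ 2 := by
      have e6 : δ * h ^ 2 ≤ δ * H ^ 2 := mul_le_mul_of_nonneg_left e4 hδ.le
      have e7 : (δ * h ^ 2) * B ^ 2 ≤ ε / 4 * B ^ 2 :=
        mul_le_mul_of_nonneg_right (by linarith) (by positivity)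
      linarith [e7, show h ^ 2 * B * (δ * B) = (δ * h ^ 2) * B ^ 2 by ring]
    have e8 : ε / 2 * B ≤ κ * h * B - u - ((1 : ℕ) : ℝ) := by
      have e9 : (1 + ε) * B ≤ κ * h * B := mul_le_mul_of_nonneg_right hhκ hB0.le
      have e10 : 4 * δ * B ≤ ε * B := mul_le_mul_of_nonneg_right hδ1 hB0.le
      push_cast
      linarith
    have e11 : 3 / 4 * B * (ε / 2 * B) ≤ u * (κ * h * B - u - ((1 : ℕ) : ℝ)) :=
      mul_le_mul hu3 e8 (by positivity) (Nat.cast_nonneg u)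
    have e12 : 0 ≤ ε * B ^ 2 := by positivity
    refine e3.trans (e5.trans (le_trans ?_ e11))
    linarith [e12, show 3 / 4 * B * (ε / 2 * B) = 3 / 8 * (ε * B ^ 2) by ring,
      show ε / 4 * B ^ 2 = 1 / 4 * (ε * B ^ 2) by ring]
  -- the constant `a' / a` is `1`
  have hc : a' / a = 1 := by
    obtain ⟨z, hz⟩ : ∃ z : ℕ, z = ⌈(1 - δ) * B / j⌉₊ := ⟨_, rfl⟩
    have hzp : 0 < (1 - δ) * B / j := by
      have : 0 < (1 - δ) * B := by
        have : 0 < 1 - δ := by linarith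
        positivity
      positivity
    have hz1 : (1 - δ) * B / j ≤ z := by rw [hz]; exact Nat.le_ceil _
    have hz2 : (z : ℝ) < (1 - δ) * B / j + 1 := by rw [hz]; exact Nat.ceil_lt_add_one hzp.le
    have hz0 : 1 ≤ z := by
      have : (0 : ℝ) < z := by linarith
      exact_mod_cast this
    have hz3 : (1 - δ) * B ≤ j * z := by
      rw [div_le_iff₀ hj0] at hz1
      linarith
    have hz4 : ((j : ℝ) + 1) * z + j ≤ (1 + δ) * B := by
      have e1 : ((j : ℝ) + 1) * z ≤ (j + 1) * ((1 - δ) * B / j + 1) :=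
        mul_le_mul_of_nonneg_left hz2.le (by positivity)
      have e2 : ((j : ℝ) + 1) * ((1 - δ) * B / j + 1)
          = (1 - δ) * B + (1 - δ) * B / j + (j + 1) := by field_simp
      have e3 : (1 - δ) * B / j ≤ δ * B / 2 := by
        rw [div_le_iff₀ hj0]
        have e4 : 2 * B ≤ j * δ * B := mul_le_mul_of_nonneg_right hjδ hB0.le
        have e5 : 0 ≤ δ * B := by positivity
        linarith [e4, e5, show δ * B / 2 * j = j * δ * B / 2 by ring]
      linarith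
    have s1 := jstep f hf (a' / a) 1 j z hj hz0 (by
      intro i hi
      have hir : (i : ℝ) + 1 ≤ j := by exact_mod_cast hi
      have hi0 : (0 : ℝ) ≤ i := Nat.cast_nonneg i
      have hz00 : (0 : ℝ) ≤ z := Nat.cast_nonneg z
      refine hgood (j * z + i * 1) ?_ ?_
      · push_cast; linarith
      · push_cast; linarith)
    have s2 := jstep f hf (a' / a) 1 (j + 1) z (by omega) hz0 (by
      intro i hi
      have hir : (i : ℝ) ≤ j := by exact_mod_cast Nat.lt_succ_iff.mp hi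
      have hi0 : (0 : ℝ) ≤ i := Nat.cast_nonneg i
      have hz00 : (0 : ℝ) ≤ z := Nat.cast_nonneg z
      refine hgood ((j + 1) * z + i * 1) ?_ ?_
      · push_cast; linarith
      · push_cast; linarith)
    rw [s1, pow_succ] at s2
    have s3 := mul_right_cancel s2
    exact (mul_eq_left.mp s3.symm)
  intro u h1 h2
  rw [hgood u h1 h2, hc, one_mul]

end Pool.Agent.Helper53.RW
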