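import Mathlib
import Pool.Agent.Helper38.PG.Final

/-!
# A completely multiplicative function which is constant on a long interval
-/

set_option autoImplicit false

namespace Pool.Agent.Helper53.RW

universe w

/-- If `f` is constant on `(A, A + 2 R]` with `A` large and `√A ≤ R`, then `f k = 1` whenever
`k ≤ A / x1` and `k ≤ R ^ 2 / A`. -/
theorem long : ∃ x1 : ℝ, 1 ≤ x1 ∧ ∀ A R : ℝ, x1 ≤ A → Real.sqrt A ≤ R →
    ∀ (G : Type w) [CommGroup G] (f : ℕ → G),
      (∀ a b : ℕ, a ≠ 0 → b ≠ 0 → f (a * b) = f a * f b) →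
      (∀ m m' : ℕ, A < m → (m : ℝ) ≤ A + 2 * R → A < m' → (m' : ℝ) ≤ A + 2 * R → f m = f m') →
      ∀ k : ℕ, k ≠ 0 → k * x1 ≤ A → k * A ≤ R ^ 2 → f k = 1 := by
  obtain ⟨c, hc, x0, hfin⟩ := Pool.Agent.Helper38.PG.final.{w} 2 (by norm_num)
  refine ⟨max x0 1, le_max_right _ _, fun A R hA hAR G _ f hf hw k hk hkA hkR => ?_⟩
  have hx0 : x0 ≤ max x0 1 := le_max_left _ _
  have hx1 : 1 ≤ max x0 1 := le_max_right _ _
  have hA0 : 0 < A := by linarith
  have hk0 : (0 : ℝ) < k := by exact_mod_cast Nat.pos_of_ne_zero hk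
  have hk1 : (1 : ℝ) ≤ k := by exact_mod_cast Nat.one_le_iff_ne_zero.mpr hk
  have hR0 : 0 ≤ R := (Real.sqrt_nonneg _).trans hAR
  obtain ⟨B, hB⟩ : ∃ B, B = A / k := ⟨_, rfl⟩
  have hBk : k * B = A := by rw [hB]; field_simp
  have hB1 : max x0 1 ≤ B := by
    rw [hB, le_div_iff₀ hk0]
    linarith
  have hB0 : 0 < B := by linarith
  have hsB : k * Real.sqrt B ≤ R := by
    refine le_of_sq_le_sq ?_ hR0
    have : (k * Real.sqrt B) ^ 2 = k * A := by
      rw [mul_pow, Real.sq_sqrt hB0.le, ← hBk]; ring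
    rw [this]
    exact hkR
  have h1 := (hfin A (by linarith) G f hf (fun m m' a b c' d =>
    hw m m' a (by linarith) c' (by linarith))).1
  have hin : ∀ t : ℕ, B < t → (t : ℝ) ≤ B + 2 * Real.sqrt B →
      A < ((k * t : ℕ) : ℝ) ∧ ((k * t : ℕ) : ℝ) ≤ A + 2 * R := by
    intro t ht1 ht2
    push_cast
    constructor
    · rw [← hBk]
      exact mul_lt_mul_of_pos_left ht1 hk0
    · have := mul_le_mul_of_nonneg_left ht2 hk0.le
      have e : (k : ℝ) * (B + 2 * Real.sqrt B) = A + 2 * (k * Real.sqrt B) := by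
        rw [← hBk]; ring
      linarith
  obtain ⟨v, hv1, hv2⟩ : ∃ v : ℕ, A < v ∧ (v : ℝ) ≤ A + 2 * Real.sqrt A := by
    refine ⟨⌊A⌋₊ + 1, by push_cast; exact Nat.lt_floor_add_one A, ?_⟩
    push_cast
    have e1 := Nat.floor_le hA0.le
    have e2 : 1 ≤ Real.sqrt A := Real.one_le_sqrt.mpr (by linarith)
    linarith
  have hv : f v = 1 := h1 v hv1 hv2
  have hval : ∀ m : ℕ, A < m → (m : ℝ) ≤ A + 2 * R → f m = 1 := by
    intro m a b
    rw [← hv]
    exact hw m v a b hv1 (by linarith)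
  have hne : ∀ t : ℕ, B < t → t ≠ 0 := by
    rintro t ht rfl
    simp at ht
    linarith
  have hft : ∀ t : ℕ, B < t → (t : ℝ) ≤ B + 2 * Real.sqrt B → f k * f t = 1 := by
    intro t a b
    rw [← hf k t hk (hne t a)]
    exact hval _ (hin t a b).1 (hin t a b).2
  have h2 := (hfin B (by linarith) G f hf (fun m m' a b c' d => by
    have e1 := hft m a b
    have e2 := hft m' c' d
    exact mul_left_cancel (e1.trans e2.symm))).1
  obtain ⟨t, ht1, ht2⟩ : ∃ t : ℕ, B < t ∧ (t : ℝ) ≤ B + 2 * Real.sqrt B := by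
    refine ⟨⌊B⌋₊ + 1, by push_cast; exact Nat.lt_floor_add_one B, ?_⟩
    push_cast
    have e1 := Nat.floor_le hB0.le
    have e2 : 1 ≤ Real.sqrt B := Real.one_le_sqrt.mpr (by linarith)
    linarith
  have h3 := hft t ht1 ht2
  rw [h2 t ht1 ht2, mul_one] at h3
  exact h3

end Pool.Agent.Helper53.RW
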