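import Mathlib
import Pool.Agent.Helper53.RW.Alg

/-!
# Two windows on which a completely multiplicative function is constant: the zones
-/

set_option autoImplicit false

namespace Pool.Agent.Helper53.RW

universe w

theorem suff (x D s u k : ℝ) (h1 : u + k ≤ s / 2) (h2 : |D * u - k * x| ≤ u * (s / 2))
    (hu : 0 ≤ u) : |D * u - k * x| ≤ u * (s - u - k) :=
  h2.trans (mul_le_mul_of_nonneg_left (by linarith) hu)

/-- The two inequalities behind the two chains.  Here `P D = m x s` and `X D = x`. -/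
theorem zone (x D s X P : ℝ) (hs : 0 < s) (hD : 0 < D) (hX0 : 0 < X) (hX : X * D = x)
    (J m : ℝ) (hJ : 2 ≤ J) (hm : 1 ≤ m) (hP : P * D = m * x * s) (hP0 : 0 < P)
    (ha : 24 * D ^ 2 * (J + 1) ^ 2 ≤ x * s) (hb : 24 * D ≤ J ^ 2 * m * s)
    (hc : 4 * (J + 1) ^ 2 ≤ X) (hd : 3 * ((J + 1) * m * X) ≤ s)
    (z v : ℝ) (hv0 : 0 ≤ v) (hv : v ≤ J * (J + 1) ^ 2 * m)
    (hz1 : m * X / 4 ≤ z) (hz2 : z ≤ 49 / 48 * (m * X))
    (hz : |D * z - (m - 1 / J) * x| ≤ P / 48) :
    (J * z + v + (J * m - 1) ≤ s / 2 ∧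
      |D * (J * z + v) - (J * m - 1) * x| ≤ (J * z + v) * (s / 2)) ∧
    ((J + 1) * z + v + ((J + 1) * m - 1) ≤ s / 2 ∧
      |D * ((J + 1) * z + v) - ((J + 1) * m - 1) * x| ≤ ((J + 1) * z + v) * (s / 2)) := by
  have hJ0 : 0 < J := by linarith
  have hm0 : 0 < m := by linarith
  have hx : 0 < x := by rw [← hX]; positivity
  have hz0 : 0 ≤ z := le_trans (by positivity) hz1
  -- size of `v` and `k`
  have hvX : v + (J + 1) * m ≤ (J + 1) * m * X / 4 := by
    have h1 : (J + 1) * m * (4 * (J + 1) ^ 2) ≤ (J + 1) * m * X :=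
      mul_le_mul_of_nonneg_left hc (by positivity)
    have h2 : J * (J + 1) ^ 2 * m + (J + 1) * m ≤ (J + 1) * m * (J + 1) ^ 2 := by
      have h3 : 0 ≤ (J + 1) * m * ((J + 1) ^ 2 - J * (J + 1) - 1) := by
        have : (J + 1) ^ 2 - J * (J + 1) - 1 = J := by ring
        rw [this]
        positivity
      nlinarith
    linarith
  have hsz : (J + 1) * z + (v + (J + 1) * m) ≤ s / 2 := by
    have h1 : (J + 1) * z ≤ (J + 1) * (49 / 48 * (m * X)) :=
      mul_le_mul_of_nonneg_left hz2 (by positivity)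
    have h2 : 0 ≤ (J + 1) * m * X := by positivity
    nlinarith
  have hu : J * P / 8 ≤ J * z * (s / 2) := by
    have h1 : P ≤ 4 * z * s := by
      have h2 : P = m * X * s := by
        have : P * D = m * X * s * D := by rw [hP, ← hX]; ring
        exact mul_right_cancel₀ hD.ne' this
      rw [h2]
      have h3 : m * X * s ≤ 4 * z * s := mul_le_mul_of_nonneg_right (by linarith) hs.le
      exact h3
    have h4 : J * P ≤ J * (4 * z * s) := mul_le_mul_of_nonneg_left h1 hJ0.le
    linarith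
  have hDv : D * v ≤ J * P / 24 := by
    have h1 : D * v ≤ D * (J * (J + 1) ^ 2 * m) := mul_le_mul_of_nonneg_left hv hD.le
    have h2 : D * (J * (J + 1) ^ 2 * m) ≤ J * P / 24 := by
      refine le_of_mul_le_mul_right ?_ hD
      have h3 : m * J * (24 * D ^ 2 * (J + 1) ^ 2) ≤ m * J * (x * s) :=
        mul_le_mul_of_nonneg_left ha (by positivity)
      have h4 : J * (P * D) = J * (m * x * s) := by rw [hP]
      nlinarith
    linarith
  have hxJ : x / J ≤ J * P / 24 := by
    rw [div_le_iff₀ hJ0]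
    refine le_of_mul_le_mul_right ?_ hD
    have h3 : x * (24 * D) ≤ x * (J ^ 2 * m * s) := mul_le_mul_of_nonneg_left hb hx.le
    have h4 : J ^ 2 * (P * D) = J ^ 2 * (m * x * s) := by rw [hP]
    nlinarith
  obtain ⟨z1, z2⟩ := abs_le.mp hz
  obtain ⟨e, he⟩ : ∃ e, e = D * z - (m - 1 / J) * x := ⟨_, rfl⟩
  rw [← he] at z1 z2
  have hDv0 : 0 ≤ D * v := by positivity
  have hxJ0 : 0 ≤ x / J := by positivity
  have hJe1 : J * e ≤ J * (P / 48) := mul_le_mul_of_nonneg_left z2 hJ0.le
  have hJe2 : J * (-(P / 48)) ≤ J * e := mul_le_mul_of_nonneg_left z1 hJ0.le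
  have i1 : D * (J * z + v) - (J * m - 1) * x = J * e + D * v := by
    rw [he]; field_simp; ring
  have i2 : D * ((J + 1) * z + v) - ((J + 1) * m - 1) * x = (J + 1) * e - x / J + D * v := by
    rw [he]; field_simp; ring
  have hJP1 : (J + 1) * (P / 48) ≤ J * P / 24 := by
    have h1 : (J + 1) * (P / 48) ≤ (J + J) * (P / 48) :=
      mul_le_mul_of_nonneg_right (by linarith) (by positivity)
    have h2 : (J + J) * (P / 48) = J * P / 24 := by ring
    linarith
  have hJ1e1 : (J + 1) * e ≤ J * P / 24 :=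
    (mul_le_mul_of_nonneg_left z2 (by positivity)).trans hJP1
  have hJ1e2 : -(J * P / 24) ≤ (J + 1) * e := by
    have h1 : (J + 1) * (-(P / 48)) ≤ (J + 1) * e := mul_le_mul_of_nonneg_left z1 (by positivity)
    have h2 : (J + 1) * (-(P / 48)) = -((J + 1) * (P / 48)) := by ring
    linarith
  have hJP : 0 ≤ J * P := by positivity
  have hvs : 0 ≤ v * (s / 2) := by positivity
  have hzs : 0 ≤ z * (s / 2) := by positivity
  have hJm : J * m ≤ (J + 1) * m := mul_le_mul_of_nonneg_right (by linarith) hm0.le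
  have hJz : J * z ≤ (J + 1) * z := mul_le_mul_of_nonneg_right (by linarith) hz0
  have ex1 : (J * z + v) * (s / 2) = J * z * (s / 2) + v * (s / 2) := by ring
  have ex2 : ((J + 1) * z + v) * (s / 2) = J * z * (s / 2) + z * (s / 2) + v * (s / 2) := by ring
  refine ⟨⟨?_, ?_⟩, ?_, ?_⟩
  · linarith
  · rw [i1, ex1, abs_le]
    constructor <;> linarith
  · linarith
  · rw [i2, ex2, abs_le]
    constructor <;> linarith

end Pool.Agent.Helper53.RW
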