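import Mathlib
import Pool.Agent.Helper53.RW.Zone

/-!
# Two windows on which a completely multiplicative function is constant: a long constant zone
-/

set_option autoImplicit false

namespace Pool.Agent.Helper53.RW

universe w

theorem main_const {G : Type w} [CommGroup G] (f : ℕ → G)
    (hf : ∀ a b : ℕ, a ≠ 0 → b ≠ 0 → f (a * b) = f a * f b) (x D s : ℝ) (hx : 0 < x) (hs : 0 < s)
    (hsD : s ≤ D) (J m : ℕ) (hJ : 2 ≤ J) (hm : 1 ≤ m)
    (ha : 24 * D ^ 2 * ((J : ℝ) + 1) ^ 2 ≤ x * s) (hb : 24 * D ≤ (J : ℝ) ^ 2 * m * s)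
    (hc : 4 * ((J : ℝ) + 1) ^ 2 * D ≤ x) (hd : 3 * (((J : ℝ) + 1) * m * x) ≤ s * D)
    (a a' : G) (hW : ∀ m : ℕ, x < m → (m : ℝ) ≤ x + s → f m = a)
    (hW' : ∀ m : ℕ, x + D < m → (m : ℝ) ≤ x + D + s → f m = a') :
    ∃ A : ℝ, m * x / (4 * D) ≤ A ∧ A ≤ 2 * (m * x / D) ∧
      ∀ w w' : ℕ, A < w → (w : ℝ) ≤ A + 2 * (m * x * s / (48 * D ^ 2)) →
        A < w' → (w' : ℝ) ≤ A + 2 * (m * x * s / (48 * D ^ 2)) → f w = f w' := by
  have hD : 0 < D := lt_of_lt_of_le hs hsD
  have hJr : (2 : ℝ) ≤ J := by exact_mod_cast hJ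
  have hmr : (1 : ℝ) ≤ m := by exact_mod_cast hm
  have hJ0 : (0 : ℝ) < J := by linarith
  have hm0 : (0 : ℝ) < m := by linarith
  obtain ⟨X, hXd⟩ : ∃ X, X = x / D := ⟨_, rfl⟩
  obtain ⟨P, hPd⟩ : ∃ P, P = m * x * s / D := ⟨_, rfl⟩
  obtain ⟨R, hRd⟩ : ∃ R, R = m * x * s / (48 * D ^ 2) := ⟨_, rfl⟩
  have hX : X * D = x := by rw [hXd]; exact div_mul_cancel₀ _ hD.ne'
  have hP : P * D = m * x * s := by rw [hPd]; exact div_mul_cancel₀ _ hD.ne'
  have hX0 : 0 < X := by rw [hXd]; positivity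
  have hP0 : 0 < P := by rw [hPd]; positivity
  have hR0 : 0 < R := by rw [hRd]; positivity
  have hRP : D * R = P / 48 := by rw [hRd, hPd]; field_simp
  have hmX0 : 0 < m * X := by positivity
  have hRX : R ≤ m * X / 48 := by
    rw [hRd, hXd, div_le_iff₀ (by positivity)]
    have h1 : (m : ℝ) * (x / D) / 48 * (48 * D ^ 2) = m * x * D := by field_simp
    rw [h1]
    exact mul_le_mul_of_nonneg_left hsD (by positivity)
  have hcX : 4 * ((J : ℝ) + 1) ^ 2 ≤ X := by
    rw [hXd, le_div_iff₀ hD]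
    exact hc
  have hdX : 3 * (((J : ℝ) + 1) * m * X) ≤ s := by
    refine le_of_mul_le_mul_right ?_ hD
    have : 3 * (((J : ℝ) + 1) * m * X) * D = 3 * (((J : ℝ) + 1) * m * x) := by rw [← hX]; ring
    rw [this]
    exact hd
  obtain ⟨Z, hZd⟩ : ∃ Z : ℝ, Z = (m - 1 / J) * X := ⟨_, rfl⟩
  have hJinv : (1 : ℝ) / J ≤ 1 / 2 := one_div_le_one_div_of_le (by norm_num) hJr
  have hJinv0 : (0 : ℝ) < 1 / J := by positivity
  have hZ1 : m * X / 2 ≤ Z := by
    rw [hZd]
    have h1 : (m : ℝ) / 2 * X ≤ (m - 1 / J) * X :=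
      mul_le_mul_of_nonneg_right (by linarith) hX0.le
    linarith
  have hZ2 : Z ≤ m * X := by
    rw [hZd]
    exact mul_le_mul_of_nonneg_right (by linarith) hX0.le
  obtain ⟨k, hk⟩ : ∃ k, k + 1 = J * m := ⟨J * m - 1, by
    have : 1 ≤ J * m := Nat.mul_pos (by omega) (by omega)
    omega⟩
  obtain ⟨k', hk'⟩ : ∃ k', k' + 1 = (J + 1) * m := ⟨(J + 1) * m - 1, by
    have : 1 ≤ (J + 1) * m := Nat.mul_pos (by omega) (by omega)
    omega⟩
  have hkr : (k : ℝ) = J * m - 1 := by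
    have : ((k + 1 : ℕ) : ℝ) = ((J * m : ℕ) : ℝ) := by rw [hk]
    push_cast at this
    linarith
  have hkr' : (k' : ℝ) = (J + 1) * m - 1 := by
    have : ((k' + 1 : ℕ) : ℝ) = (((J + 1) * m : ℕ) : ℝ) := by rw [hk']
    push_cast at this
    linarith
  have hk0 : (0 : ℝ) ≤ k := Nat.cast_nonneg k
  -- one step
  have hstep : ∀ z : ℕ, Z - R ≤ z → (z : ℝ) ≤ Z + R →
      f (z + (J + 1) * k) = f (z + (J + 1) * k + 1) := by
    intro z h1 h2
    have hz1 : m * X / 4 ≤ z := by linarith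
    have hz2 : (z : ℝ) ≤ 49 / 48 * (m * X) := by linarith
    have hz0 : 1 ≤ z := by
      have : (0 : ℝ) < z := by linarith
      exact_mod_cast this
    have hz : |D * z - (m - 1 / J) * x| ≤ P / 48 := by
      have h3 : D * z - (m - 1 / J) * x = D * (z - Z) := by rw [hZd, ← hX]; ring
      rw [h3, abs_mul, abs_of_pos hD, ← hRP]
      refine mul_le_mul_of_nonneg_left ?_ hD.le
      rw [abs_le]
      constructor <;> linarith
    have hzone := fun (v : ℕ) (hv : v ≤ J * (J + 1) ^ 2 * m) =>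
      zone x D s X P hs hD hX0 hX J m hJr hmr hP hP0 ha hb hcX hdX z v (Nat.cast_nonneg v)
        (by exact_mod_cast hv) hz1 hz2 hz
    refine key f hf (a' / a) J m z k k' (by omega) hz0 hk hk' (fun v hv => ?_) fun v hv => ?_
    · obtain ⟨⟨q1, q2⟩, -⟩ := hzone v hv
      refine good f hf x D s hx.le hD.le a a' hW hW' (J * z + v) k
        (by have := Nat.mul_pos (show 0 < J by omega) hz0; omega) ?_
      rw [hkr]
      push_cast
      exact suff x D s _ _ q1 q2 (by positivity)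
    · obtain ⟨-, q1, q2⟩ := hzone v hv
      refine good f hf x D s hx.le hD.le a a' hW hW' ((J + 1) * z + v) k'
        (by have := Nat.mul_pos (show 0 < J + 1 by omega) hz0; omega) ?_
      rw [hkr']
      push_cast
      exact suff x D s _ _ q1 q2 (by positivity)
  obtain ⟨A, hAd⟩ : ∃ A : ℝ, A = Z - R + (J + 1) * k := ⟨_, rfl⟩
  have hZR : m * X / 4 ≤ Z - R := by linarith
  have hJk0 : (0 : ℝ) ≤ (J + 1) * k := by positivity
  have hA1 : m * X / 4 ≤ A := by rw [hAd]; linarith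
  have hA2 : A ≤ 2 * (m * X) := by
    have h1 : ((J : ℝ) + 1) * k ≤ (J + 1) * ((J + 1) * m) :=
      mul_le_mul_of_nonneg_left (by rw [hkr]; linarith) (by positivity)
    have h2 : (m : ℝ) * (4 * (J + 1) ^ 2) ≤ m * X := mul_le_mul_of_nonneg_left hcX hm0.le
    have h3 : ((J : ℝ) + 1) * ((J + 1) * m) = m * (J + 1) ^ 2 := by ring
    rw [hAd]
    linarith
  rw [← hRd]
  have hrun : ∀ n w : ℕ, A < w → ((w + n : ℕ) : ℝ) ≤ A + 2 * R → f w = f (w + n) := by
    intro n
    induction n with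
    | zero => intro w _ _; rfl
    | succ n ih =>
      intro w h1 h2
      push_cast at h2
      have h3 := ih w h1 (by push_cast; linarith)
      have h4 : (J + 1) * k ≤ w + n := by
        have h5 : (((J + 1) * k : ℕ) : ℝ) ≤ ((w + n : ℕ) : ℝ) := by
          push_cast
          have h6 : (0 : ℝ) ≤ n := Nat.cast_nonneg n
          have h7 : 0 < m * X / 4 := by positivity
          rw [hAd] at h1
          linarith
        exact_mod_cast h5
      obtain ⟨z, hz⟩ : ∃ z, w + n = z + (J + 1) * k := ⟨w + n - (J + 1) * k, by omega⟩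
      have hzr : (w : ℝ) + n = z + (J + 1) * k := by exact_mod_cast hz
      have hn0 : (0 : ℝ) ≤ n := Nat.cast_nonneg n
      have h8 := hstep z (by rw [hAd] at h1; linarith) (by rw [hAd] at h2; linarith)
      rw [h3, show w + (n + 1) = w + n + 1 by ring, hz, h8]
  refine ⟨A, ?_, ?_, ?_⟩
  · have : (m : ℝ) * x / (4 * D) = m * X / 4 := by rw [hXd]; field_simp
    rw [this]
    exact hA1
  · have : (m : ℝ) * x / D = m * X := by rw [hXd]; field_simp
    rw [this]
    exact hA2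
  · intro w w' h1 h2 h3 h4
    rcases le_total w w' with hle | hle
    · obtain ⟨n, rfl⟩ := Nat.exists_eq_add_of_le hle
      exact hrun n w h1 h4
    · obtain ⟨n, rfl⟩ := Nat.exists_eq_add_of_le hle
      exact (hrun n w' h3 h2).symm

end Pool.Agent.Helper53.RW
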