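import Mathlib

/-!
# Two windows on which a completely multiplicative function is constant: the parameters
-/

set_option autoImplicit false

namespace Pool.Agent.Helper53.RW

theorem params (K C h q J m : ℝ) (hK : 0 < K) (hK1 : K ≤ 1) (hC : 4000 ≤ C) (hq : 0 < q)
    (hh0 : 0 < h) (hJ0 : 2 ≤ J) (hJ1 : 384 ≤ K ^ 2 * J) (hJ2 : K ^ 2 * (J + 1) ≤ 387)
    (hh1 : C ≤ K ^ 3 * h) (hh2 : C * h ≤ K ^ 3 * q) (hm0 : 0 < m)
    (hm1 : 4 * (J + 1) * m ≤ K * h) (hm2 : K * h ≤ 8 * (J + 1) * m) :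
    24 * h ^ 2 * (J + 1) ^ 2 ≤ K * q ^ 2 ∧ 24 * h ≤ J ^ 2 * m * K ∧
      4 * (J + 1) ^ 2 * h ≤ q ^ 2 ∧ 3 * ((J + 1) * m) ≤ K * h ∧
      4608 * h ^ 3 ≤ m * K ^ 2 * q ^ 2 ∧ K ^ 3 * h ≤ 3096 * m ∧ C ≤ K ^ 3 * q ^ 2 := by
  have hC0 : 0 < C := by linarith
  have hC2 : 16000000 ≤ C ^ 2 := by nlinarith
  obtain ⟨g, hg⟩ : ∃ g, g = (J + 1) * h := ⟨_, rfl⟩
  have hg0 : 0 < g := by rw [hg]; positivity
  have hg1 : K ^ 2 * g ≤ 387 * h := by
    have := mul_le_mul_of_nonneg_right hJ2 hh0.le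
    rw [hg]
    linarith
  have hg2 : C * g ≤ 387 * K * q := by
    refine le_of_mul_le_mul_left ?_ (pow_pos hK 2)
    have h1 : C * (K ^ 2 * g) ≤ C * (387 * h) := mul_le_mul_of_nonneg_left hg1 hC0.le
    have h2 : K ^ 2 * (387 * K * q) = 387 * (K ^ 3 * q) := by ring
    rw [h2]
    linarith
  have hK2 : K ^ 2 ≤ K := by nlinarith
  have hK6 : C ^ 2 ≤ K ^ 6 * q := by
    have h1 : K ^ 3 * (C * h) ≤ K ^ 3 * (K ^ 3 * q) :=
      mul_le_mul_of_nonneg_left hh2 (pow_pos hK 3).le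
    have h2 : C * C ≤ C * (K ^ 3 * h) := mul_le_mul_of_nonneg_left hh1 hC0.le
    have h3 : K ^ 3 * (K ^ 3 * q) = K ^ 6 * q := by ring
    nlinarith
  have hKq : C ^ 2 ≤ K * q := by
    have h1 : K ^ 6 ≤ K ^ 1 := pow_le_pow_of_le_one hK.le hK1 (by norm_num)
    have h2 : K ^ 6 * q ≤ K ^ 1 * q := mul_le_mul_of_nonneg_right h1 hq.le
    rw [pow_one] at h2
    linarith
  have hK3q : C ^ 2 ≤ K ^ 3 * q := by
    have h1 : K ^ 6 ≤ K ^ 3 := pow_le_pow_of_le_one hK.le hK1 (by norm_num)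
    have h2 : K ^ 6 * q ≤ K ^ 3 * q := mul_le_mul_of_nonneg_right h1 hq.le
    linarith
  have hq1 : C ^ 2 ≤ q := by
    have h2 : K * q ≤ 1 * q := mul_le_mul_of_nonneg_right hK1 hq.le
    linarith
  refine ⟨?_, ?_, ?_, ?_, ?_, ?_, ?_⟩
  · -- (a)
    have h1 : (C * g) ^ 2 ≤ (387 * K * q) ^ 2 := pow_le_pow_left₀ (by positivity) hg2 2
    have h2 : 24 * h ^ 2 * (J + 1) ^ 2 = 24 * g ^ 2 := by rw [hg]; ring
    rw [h2]
    refine le_of_mul_le_mul_left ?_ (pow_pos hC0 2)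
    have h3 : 24 * (387 * K * q) ^ 2 ≤ 16000000 * (K * q ^ 2) := by
      have h4 : K ^ 2 * q ^ 2 ≤ K * q ^ 2 := mul_le_mul_of_nonneg_right hK2 (by positivity)
      have h5 : 0 ≤ K * q ^ 2 := by positivity
      nlinarith
    have h6 : 16000000 * (K * q ^ 2) ≤ C ^ 2 * (K * q ^ 2) :=
      mul_le_mul_of_nonneg_right hC2 (by positivity)
    have h7 : C ^ 2 * (24 * g ^ 2) = 24 * (C * g) ^ 2 := by ring
    rw [h7]
    linarith
  · -- (b)
    have h1 : K * h ≤ 16 * (J * m) := by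
      have : J * m + m ≤ 2 * (J * m) := by nlinarith
      linarith
    have h2 : J * K * (K * h) ≤ J * K * (16 * (J * m)) :=
      mul_le_mul_of_nonneg_left h1 (by positivity)
    have h3 : 384 * h ≤ K ^ 2 * J * h := mul_le_mul_of_nonneg_right hJ1 hh0.le
    have h4 : J * K * (K * h) = K ^ 2 * J * h := by ring
    have h5 : J * K * (16 * (J * m)) = 16 * (J ^ 2 * m * K) := by ring
    linarith
  · -- (c)
    have h1 : 4 * (J + 1) ^ 2 * h = 4 * (J + 1) * g := by rw [hg]; ring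
    rw [h1]
    refine le_of_mul_le_mul_left ?_ (mul_pos hK hC0)
    have h2 : 4 * (J + 1) * K * (C * g) ≤ 4 * (J + 1) * K * (387 * K * q) :=
      mul_le_mul_of_nonneg_left hg2 (by positivity)
    have h3 : 4 * (J + 1) * K * (387 * K * q) = 1548 * q * (K ^ 2 * (J + 1)) := by ring
    have h4 : 1548 * q * (K ^ 2 * (J + 1)) ≤ 1548 * q * 387 :=
      mul_le_mul_of_nonneg_left hJ2 (by positivity)
    have h5 : C * q * C ^ 2 ≤ C * q * (K * q) := mul_le_mul_of_nonneg_left hKq (by positivity)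
    have h6 : 1548 * q * 387 ≤ C * q * C ^ 2 := by
      have h7 : 1548 * 387 ≤ C * C ^ 2 := by nlinarith
      have h8 : q * (1548 * 387) ≤ q * (C * C ^ 2) := mul_le_mul_of_nonneg_left h7 hq.le
      linarith
    have h9 : K * C * (4 * (J + 1) * g) = 4 * (J + 1) * K * (C * g) := by ring
    have h10 : K * C * q ^ 2 = C * q * (K * q) := by ring
    rw [h9, h10]
    linarith
  · -- (d)
    have : 0 ≤ (J + 1) * m := by positivity
    linarith
  · -- (e)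
    have h1 : C ^ 2 * (g * h) ≤ 387 * K ^ 4 * q ^ 2 := by
      have h2 : C * g * (C * h) ≤ 387 * K * q * (K ^ 3 * q) :=
        mul_le_mul hg2 hh2 (by positivity) (by positivity)
      have h3 : C * g * (C * h) = C ^ 2 * (g * h) := by ring
      have h4 : 387 * K * q * (K ^ 3 * q) = 387 * K ^ 4 * q ^ 2 := by ring
      linarith
    have h2 : 36864 * (g * h) ≤ K ^ 3 * q ^ 2 := by
      refine le_of_mul_le_mul_left ?_ (pow_pos hC0 2)
      have h3 : K ^ 4 * q ^ 2 ≤ K ^ 3 * q ^ 2 :=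
        mul_le_mul_of_nonneg_right (pow_le_pow_of_le_one hK.le hK1 (by norm_num)) (by positivity)
      have h4 : 16000000 * (K ^ 3 * q ^ 2) ≤ C ^ 2 * (K ^ 3 * q ^ 2) :=
        mul_le_mul_of_nonneg_right hC2 (by positivity)
      have h5 : 0 ≤ K ^ 3 * q ^ 2 := by positivity
      linarith
    refine le_of_mul_le_mul_left ?_ (show (0 : ℝ) < 8 * (J + 1) by positivity)
    have h3 : h * (36864 * (g * h)) ≤ h * (K ^ 3 * q ^ 2) := mul_le_mul_of_nonneg_left h2 hh0.le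
    have h4 : K ^ 2 * q ^ 2 * (K * h) ≤ K ^ 2 * q ^ 2 * (8 * (J + 1) * m) :=
      mul_le_mul_of_nonneg_left hm2 (by positivity)
    have h5 : 8 * (J + 1) * (4608 * h ^ 3) = h * (36864 * (g * h)) := by rw [hg]; ring
    have h6 : 8 * (J + 1) * (m * K ^ 2 * q ^ 2) = K ^ 2 * q ^ 2 * (8 * (J + 1) * m) := by ring
    have h7 : K ^ 2 * q ^ 2 * (K * h) = h * (K ^ 3 * q ^ 2) := by ring
    linarith
  · -- (f)
    have h1 : K ^ 2 * (K * h) ≤ K ^ 2 * (8 * (J + 1) * m) :=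
      mul_le_mul_of_nonneg_left hm2 (by positivity)
    have h2 : 8 * m * (K ^ 2 * (J + 1)) ≤ 8 * m * 387 :=
      mul_le_mul_of_nonneg_left hJ2 (by positivity)
    have h3 : K ^ 2 * (K * h) = K ^ 3 * h := by ring
    have h4 : K ^ 2 * (8 * (J + 1) * m) = 8 * m * (K ^ 2 * (J + 1)) := by ring
    linarith
  · -- (g)
    have h1 : C ^ 2 * q ≤ K ^ 3 * q * q := mul_le_mul_of_nonneg_right hK3q hq.le
    have h2 : K ^ 3 * q * q = K ^ 3 * q ^ 2 := by ring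
    have h3 : C ≤ C ^ 2 := by nlinarith
    have h4 : C ^ 2 * 1 ≤ C ^ 2 * q := mul_le_mul_of_nonneg_left (by linarith) (by positivity)
    linarith

end Pool.Agent.Helper53.RW
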