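import Mathlib
import Pool.Agent.Helper53.RW.Main
import Pool.Agent.Helper53.RW.Par
import Pool.Agent.Helper53.RW.Long

/-!
# Two windows on which a completely multiplicative function is constant
-/

set_option autoImplicit false

namespace Pool.Agent.Helper53.RW

universe w

private theorem fourth (x : ℝ) (hx : 0 ≤ x) : Real.sqrt (Real.sqrt x) ^ 4 = x := by
  rw [show (4 : ℕ) = 2 * 2 by norm_num, pow_mul, Real.sq_sqrt (Real.sqrt_nonneg _), Real.sq_sqrt hx]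

theorem rep : ∃ C : ℝ, 1 ≤ C ∧ ∀ κ : ℝ, 0 < κ → κ ≤ 1 → ∀ x x' : ℝ, 0 < x →
    x + C / κ ^ 3 * Real.sqrt x ≤ x' →
    x' ≤ x + κ ^ 3 / C * (Real.sqrt x * Real.sqrt (Real.sqrt x)) →
    ∀ (G : Type w) [CommGroup G] (f : ℕ → G),
      (∀ a b : ℕ, a ≠ 0 → b ≠ 0 → f (a * b) = f a * f b) →
      (∀ m m' : ℕ, x < m → (m : ℝ) ≤ x + κ * Real.sqrt x → x < m' →
        (m' : ℝ) ≤ x + κ * Real.sqrt x → f m = f m') →
      (∀ m m' : ℕ, x' < m → (m : ℝ) ≤ x' + κ * Real.sqrt x' → x' < m' →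
        (m' : ℝ) ≤ x' + κ * Real.sqrt x' → f m = f m') →
      ∀ k : ℕ, k ≠ 0 → ((k : ℝ) ^ 8 ≤ κ ^ 6 / C * x ∨
        (k : ℝ) * (x' - x) ^ 2 ≤ κ ^ 5 / C * (x * Real.sqrt x)) → f k = 1 := by
  obtain ⟨c, hc, x0, hfin⟩ := Pool.Agent.Helper38.PG.final.{w} 2 (by norm_num)
  obtain ⟨x1, hx1, hlong⟩ := long.{w}
  obtain ⟨C, hC⟩ : ∃ C : ℝ, C = 15000000 + 12384 * |x0| + (12384 / c ^ 4) ^ 2 + 12384 * x1 :=
    ⟨_, rfl⟩
  have ha0 : 0 ≤ |x0| := abs_nonneg _
  have hs0 : 0 ≤ (12384 / c ^ 4) ^ 2 := by positivity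
  have hC15 : 15000000 ≤ C := by rw [hC]; linarith
  have hC4 : 4000 ≤ C := by linarith
  have hCx : 12384 * |x0| ≤ C := by rw [hC]; linarith
  have hCx1 : 12384 * x1 ≤ C := by rw [hC]; linarith
  have hCc : (12384 / c ^ 4) ^ 2 ≤ C := by rw [hC]; linarith
  have hC0 : 0 < C := by linarith
  clear hC
  refine ⟨C, by linarith, ?_⟩
  intro K hK hK1 x x' hx hxx1 hxx2 G _ f hf hw hw' k hk hkx
  obtain ⟨r, hrd⟩ : ∃ r, r = Real.sqrt x := ⟨_, rfl⟩
  obtain ⟨q, hqd⟩ : ∃ q, q = Real.sqrt r := ⟨_, rfl⟩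
  have hr : 0 < r := by rw [hrd]; exact Real.sqrt_pos.mpr hx
  have hq : 0 < q := by rw [hqd]; exact Real.sqrt_pos.mpr hr
  have hxr : x = r ^ 2 := by rw [hrd]; exact (Real.sq_sqrt hx.le).symm
  have hrq : q ^ 2 = r := by rw [hqd]; exact Real.sq_sqrt hr.le
  rw [← hrd] at hxx1 hxx2 hw
  rw [← hqd] at hxx2
  obtain ⟨D, hDd⟩ : ∃ D, D = x' - x := ⟨_, rfl⟩
  obtain ⟨h, hhd⟩ : ∃ h, h = D / r := ⟨_, rfl⟩
  have hDh : D = h * r := by rw [hhd]; exact (div_mul_cancel₀ _ hr.ne').symm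
  have hK3 : 0 < K ^ 3 := pow_pos hK 3
  have hh1 : C ≤ K ^ 3 * h := by
    have h1 : C / K ^ 3 * r ≤ h * r := by rw [← hDh]; linarith
    have h2 := le_of_mul_le_mul_right h1 hr
    rw [div_le_iff₀ hK3] at h2
    linarith
  have hh2 : C * h ≤ K ^ 3 * q := by
    have h1 : h * r ≤ K ^ 3 / C * q * r := by
      rw [← hDh]
      have : K ^ 3 / C * (r * q) = K ^ 3 / C * q * r := by ring
      linarith
    have h2 := le_of_mul_le_mul_right h1 hr
    have h3 := mul_le_mul_of_nonneg_left h2 hC0.le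
    have h4 : C * (K ^ 3 / C * q) = K ^ 3 * q := by field_simp
    linarith
  have hh0 : 0 < h := by
    by_contra hcon
    push Not at hcon
    have : K ^ 3 * h ≤ 0 := mul_nonpos_of_nonneg_of_nonpos hK3.le hcon
    linarith
  have hK31 : K ^ 3 ≤ 1 := pow_le_one₀ hK.le hK1
  have hh4 : C ≤ h := by
    have : K ^ 3 * h ≤ 1 * h := mul_le_mul_of_nonneg_right hK31 hh0.le
    linarith
  -- parameters
  obtain ⟨J, hJd⟩ : ∃ J : ℕ, J = ⌈384 / K ^ 2⌉₊ + 1 := ⟨_, rfl⟩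
  have hK2 : 0 < K ^ 2 := pow_pos hK 2
  have hK21 : K ^ 2 ≤ 1 := pow_le_one₀ hK.le hK1
  have hcl1 : 384 / K ^ 2 ≤ (⌈384 / K ^ 2⌉₊ : ℝ) := Nat.le_ceil _
  have hcl2 : (⌈384 / K ^ 2⌉₊ : ℝ) < 384 / K ^ 2 + 1 := Nat.ceil_lt_add_one (by positivity)
  have hJr : (J : ℝ) = (⌈384 / K ^ 2⌉₊ : ℝ) + 1 := by rw [hJd]; push_cast; ring
  have hdK : K ^ 2 * (384 / K ^ 2) = 384 := by field_simp
  have hJ1 : 384 ≤ K ^ 2 * (J : ℝ) := by
    have h1 : K ^ 2 * (384 / K ^ 2) ≤ K ^ 2 * (J : ℝ) :=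
      mul_le_mul_of_nonneg_left (by linarith) hK2.le
    linarith
  have hJ2 : K ^ 2 * ((J : ℝ) + 1) ≤ 387 := by
    have h1 : K ^ 2 * ((J : ℝ) + 1) ≤ K ^ 2 * (384 / K ^ 2 + 3) :=
      mul_le_mul_of_nonneg_left (by linarith) hK2.le
    have h2 : K ^ 2 * (384 / K ^ 2 + 3) = K ^ 2 * (384 / K ^ 2) + 3 * K ^ 2 := by ring
    linarith
  have hJ0r : (2 : ℝ) ≤ J := by
    have h1 : K ^ 2 * (J : ℝ) ≤ 1 * J := mul_le_mul_of_nonneg_right hK21 (Nat.cast_nonneg _)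
    linarith
  have hJ0 : 2 ≤ J := by exact_mod_cast hJ0r
  obtain ⟨t, htd⟩ : ∃ t : ℝ, t = K * h / (4 * ((J : ℝ) + 1)) := ⟨_, rfl⟩
  have hJp : (0 : ℝ) < 4 * ((J : ℝ) + 1) := by positivity
  have ht1 : 1 ≤ t := by
    rw [htd, le_div_iff₀ hJp]
    refine le_of_mul_le_mul_left ?_ hK2
    have h1 : K ^ 2 * (K * h) = K ^ 3 * h := by ring
    have h2 : K ^ 2 * (1 * (4 * ((J : ℝ) + 1))) = 4 * (K ^ 2 * ((J : ℝ) + 1)) := by ring
    rw [h1, h2]
    linarith
  obtain ⟨m, hmd⟩ : ∃ m : ℕ, m = ⌊t⌋₊ := ⟨_, rfl⟩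
  have hm : 1 ≤ m := by rw [hmd]; exact Nat.le_floor (by exact_mod_cast ht1)
  have hmr : (1 : ℝ) ≤ m := by exact_mod_cast hm
  have hmt : (m : ℝ) ≤ t := by rw [hmd]; exact Nat.floor_le (by linarith)
  have hmt2 : t < m + 1 := by rw [hmd]; exact Nat.lt_floor_add_one t
  have htJ : t * (4 * ((J : ℝ) + 1)) = K * h := by rw [htd]; exact div_mul_cancel₀ _ hJp.ne'
  have hm1 : 4 * ((J : ℝ) + 1) * m ≤ K * h := by
    have := mul_le_mul_of_nonneg_right hmt hJp.le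
    linarith
  have hm2 : K * h ≤ 8 * ((J : ℝ) + 1) * m := by
    have h1 : t * (4 * ((J : ℝ) + 1)) ≤ (2 * m) * (4 * ((J : ℝ) + 1)) :=
      mul_le_mul_of_nonneg_right (by linarith) hJp.le
    linarith
  obtain ⟨pa, pb, pc, pd, pe, pf, pg⟩ := params K C h q J m hK hK1 hC4 hq hh0 hJ0r hJ1 hJ2 hh1 hh2
    (by linarith) hm1 hm2
  rw [hrq] at pa pc pe pg
  -- the windows
  have hKr : C ≤ K * r := by
    have h1 : K ^ 3 ≤ K ^ 1 := pow_le_pow_of_le_one hK.le hK1 (by norm_num)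
    have h2 : K ^ 3 * r ≤ K ^ 1 * r := mul_le_mul_of_nonneg_right h1 hr.le
    rw [pow_one] at h2
    linarith
  have hD0 : 0 < D := by rw [hDh]; positivity
  have hxx : x ≤ x' := by linarith
  have hx'0 : 0 < x' := by linarith
  have hrr : r ≤ Real.sqrt x' := by rw [hrd]; exact Real.sqrt_le_sqrt hxx
  have hKrr : K * r ≤ K * Real.sqrt x' := mul_le_mul_of_nonneg_left hrr hK.le
  have hxD : x + D = x' := by rw [hDd]; ring
  have hW : ∀ m : ℕ, x < m → (m : ℝ) ≤ x + K * r → f m = f (⌊x⌋₊ + 1) := by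
    intro n hn1 hn2
    refine hw n (⌊x⌋₊ + 1) hn1 hn2 ?_ ?_
    · push_cast; exact Nat.lt_floor_add_one x
    · push_cast
      have := Nat.floor_le hx.le
      linarith
  have hW' : ∀ m : ℕ, x + D < m → (m : ℝ) ≤ x + D + K * r → f m = f (⌊x'⌋₊ + 1) := by
    intro n hn1 hn2
    rw [hxD] at hn1 hn2
    refine hw' n (⌊x'⌋₊ + 1) hn1 (by linarith) ?_ ?_
    · push_cast; exact Nat.lt_floor_add_one x'
    · push_cast
      have := Nat.floor_le hx'0.le
      linarith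
  have hsD : K * r ≤ D := by
    rw [hDh]
    exact mul_le_mul_of_nonneg_right (by linarith) hr.le
  obtain ⟨A, hA1, hA2, hAc⟩ := main_const f hf x D (K * r) hx (by positivity) hsD J m hJ0 hm
    (by
      rw [hDh, hxr]
      have h1 := mul_le_mul_of_nonneg_left pa (show (0 : ℝ) ≤ r ^ 2 by positivity)
      linarith [h1, show 24 * (h * r) ^ 2 * ((J : ℝ) + 1) ^ 2
        = r ^ 2 * (24 * h ^ 2 * ((J : ℝ) + 1) ^ 2) by ring,
        show r ^ 2 * (K * r) = r ^ 2 * (K * r) by rfl])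
    (by
      rw [hDh]
      have h1 := mul_le_mul_of_nonneg_left pb hr.le
      linarith [h1, show r * ((J : ℝ) ^ 2 * m * K) = (J : ℝ) ^ 2 * m * (K * r) by ring])
    (by
      rw [hDh, hxr]
      have h1 := mul_le_mul_of_nonneg_left pc hr.le
      linarith [h1, show 4 * ((J : ℝ) + 1) ^ 2 * (h * r)
        = r * (4 * ((J : ℝ) + 1) ^ 2 * h) by ring, show r * r = r ^ 2 by ring])
    (by
      rw [hDh, hxr]
      have h1 := mul_le_mul_of_nonneg_left pd (show (0 : ℝ) ≤ r ^ 2 by positivity)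
      linarith [h1, show 3 * (((J : ℝ) + 1) * m * r ^ 2)
        = r ^ 2 * (3 * (((J : ℝ) + 1) * m)) by ring,
        show K * r * (h * r) = r ^ 2 * (K * h) by ring])
    (f (⌊x⌋₊ + 1)) (f (⌊x'⌋₊ + 1)) hW hW'
  -- lower bound for `A`
  have hA3 : K ^ 3 * r / 12384 ≤ A := by
    refine le_trans ?_ hA1
    rw [hDh, hxr, le_div_iff₀ (by positivity)]
    have h1 : K ^ 3 * r / 12384 * (4 * (h * r)) = r ^ 2 * (K ^ 3 * h) / 3096 := by ring
    rw [h1, div_le_iff₀ (by norm_num)]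
    have h2 := mul_le_mul_of_nonneg_left pf (show (0 : ℝ) ≤ r ^ 2 by positivity)
    linarith
  have hA0 : 0 < A := lt_of_lt_of_le (by positivity) hA3
  have hAx0 : x0 ≤ A := by
    have h1 := le_abs_self x0
    linarith
  obtain ⟨R, hRd⟩ : ∃ R, R = m * x * (K * r) / (48 * D ^ 2) := ⟨_, rfl⟩
  rw [← hRd] at hAc
  have hR0 : 0 < R := by rw [hRd]; positivity
  have hAR : Real.sqrt A ≤ R := by
    rw [Real.sqrt_le_iff]
    refine ⟨hR0.le, hA2.trans ?_⟩
    have h1 : 2 * (m * x / D) = 2 * (m * r) / h := by rw [hDh, hxr]; field_simp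
    have h2 : R ^ 2 = (m * r) * (m * K ^ 2 * r) / (2304 * h ^ 4) := by
      rw [hRd, hDh, hxr]; field_simp; ring
    rw [h1, h2, div_le_div_iff₀ hh0 (by positivity)]
    have h3 := mul_le_mul_of_nonneg_left pe (show 0 ≤ m * r * h by positivity)
    linarith [h3, show 2 * (m * r) * (2304 * h ^ 4) = m * r * h * (4608 * h ^ 3) by ring,
      show m * r * (m * K ^ 2 * r) * h = m * r * h * (m * K ^ 2 * r) by ring]
  rcases hkx with hkx | hkx
  swap
  · -- the second range of `k`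
    have hk0 : (0 : ℝ) < k := by exact_mod_cast Nat.pos_of_ne_zero hk
    have hkh : k * h ^ 2 ≤ K ^ 5 * r / C := by
      rw [← hrd, ← hDd, hDh, hxr] at hkx
      refine le_of_mul_le_mul_right ?_ (show (0 : ℝ) < r ^ 2 by positivity)
      linarith [hkx, show k * h ^ 2 * r ^ 2 = k * (h * r) ^ 2 by ring,
        show K ^ 5 * r / C * r ^ 2 = K ^ 5 / C * (r ^ 2 * r) by ring]
    have hK53 : K ^ 5 ≤ K ^ 3 := pow_le_pow_of_le_one hK.le hK1 (by norm_num)
    refine hlong A R (by linarith) hAR G f hf hAc k hk ?_ ?_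
    · have e1 : x1 ≤ h ^ 2 := by
        have e0 : h * 1 ≤ h * h := mul_le_mul_of_nonneg_left (by linarith) hh0.le
        linarith [e0, show h * h = h ^ 2 by ring]
      have e2 : k * x1 ≤ k * h ^ 2 := mul_le_mul_of_nonneg_left e1 hk0.le
      have e3 : K ^ 5 * r / C ≤ K ^ 3 * r / 12384 :=
        div_le_div₀ (by positivity) (mul_le_mul_of_nonneg_right hK53 hr.le) (by norm_num)
          (by linarith)
      linarith
    · have e1 : k * A ≤ k * (2 * (m * r) / h) := by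
        refine mul_le_mul_of_nonneg_left (hA2.trans (le_of_eq ?_)) hk0.le
        rw [hDh, hxr]; field_simp
      have e2 : R ^ 2 = (m * r) * (m * K ^ 2 * r) / (2304 * h ^ 4) := by
        rw [hRd, hDh, hxr]; field_simp; ring
      refine e1.trans ?_
      rw [e2, ← mul_div_assoc, div_le_div_iff₀ hh0 (by positivity)]
      have e3 : 4608 * (k * h ^ 3) ≤ m * K ^ 2 * r := by
        have e4 : h * (k * h ^ 2) ≤ h * (K ^ 5 * r / C) := mul_le_mul_of_nonneg_left hkh hh0.le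
        have e5 : K ^ 2 * r * (K ^ 3 * h) ≤ K ^ 2 * r * (3096 * m) :=
          mul_le_mul_of_nonneg_left pf (by positivity)
        have e6 : 4608 * (h * (K ^ 5 * r / C)) ≤ m * K ^ 2 * r := by
          have e7 : 4608 * (h * (K ^ 5 * r / C)) = 4608 * (K ^ 2 * r * (K ^ 3 * h)) / C := by ring
          rw [e7, div_le_iff₀ hC0]
          have e8 : m * K ^ 2 * r * 15000000 ≤ m * K ^ 2 * r * C :=
            mul_le_mul_of_nonneg_left hC15 (by positivity)
          have e9 : 0 ≤ m * K ^ 2 * r := by positivity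
          linarith [e5, e8, e9, show K ^ 2 * r * (3096 * m) = 3096 * (m * K ^ 2 * r) by ring]
        linarith [e4, e6, show k * h ^ 3 = h * (k * h ^ 2) by ring]
      have e10 := mul_le_mul_of_nonneg_left e3 (show 0 ≤ m * r * h by positivity)
      linarith [e10, show k * (2 * (m * r)) * (2304 * h ^ 4)
        = m * r * h * (4608 * (k * h ^ 3)) by ring,
        show m * r * (m * K ^ 2 * r) * h = m * r * h * (m * K ^ 2 * r) by ring]
  have hconst := hfin A hAx0 G f hf (fun w w' h1 h2 h3 h4 =>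
    hAc w w' h1 (by linarith) h3 (by linarith))
  refine hconst.2 k hk ?_
  -- size of `k`
  have hk4 : (k : ℝ) ^ 4 ≤ c ^ 4 * (K ^ 3 * r / 12384) := by
    refine le_of_sq_le_sq ?_ (by positivity)
    have h1 : ((k : ℝ) ^ 4) ^ 2 = (k : ℝ) ^ 8 := by ring
    have h2 : (c ^ 4 * (K ^ 3 * r / 12384)) ^ 2 = K ^ 6 * x / (12384 / c ^ 4) ^ 2 := by
      rw [hxr]; field_simp
    rw [h1, h2]
    refine hkx.trans ?_
    have h3 : K ^ 6 / C * x = K ^ 6 * x / C := by ring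
    rw [h3]
    exact div_le_div_of_nonneg_left (by positivity) (by positivity) hCc
  refine le_of_pow_le_pow_left₀ (n := 4) (by norm_num) (by positivity) ?_
  rw [mul_pow, fourth A hA0.le]
  exact hk4.trans (mul_le_mul_of_nonneg_left hA3 (by positivity))

end Pool.Agent.Helper53.RW
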