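import Mathlib
import Pool.Agent.Helper53.RW.Rep
import Pool.Agent.Helper53.RW.Near

/-!
# Two windows on which a completely multiplicative function is constant: the whole range
-/

set_option autoImplicit false

namespace Pool.Agent.Helper53.RW

universe w

theorem const_of_step {G : Type w} (f : ℕ → G) (A A' : ℝ)
    (h : ∀ u : ℕ, A ≤ u → (u : ℝ) ≤ A' → f (u + 1) = f u) :
    ∀ m m' : ℕ, A < m → (m : ℝ) ≤ A' → A < m' → (m' : ℝ) ≤ A' → f m = f m' := by
  have hrun : ∀ n w : ℕ, A < w → ((w + n : ℕ) : ℝ) ≤ A' → f w = f (w + n) := by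
    intro n
    induction n with
    | zero => intro w _ _; rfl
    | succ n ih =>
      intro w h1 h2
      push_cast at h2
      have h3 := ih w h1 (by push_cast; linarith)
      have hn0 : (0 : ℝ) ≤ n := Nat.cast_nonneg n
      rw [h3, ← Nat.add_assoc]
      exact (h (w + n) (by push_cast; linarith) (by push_cast; linarith)).symm
  intro w w' h1 h2 h3 h4
  rcases le_total w w' with hle | hle
  · obtain ⟨n, rfl⟩ := Nat.exists_eq_add_of_le hle
    exact hrun n w h1 h4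
  · obtain ⟨n, rfl⟩ := Nat.exists_eq_add_of_le hle
    exact (hrun n w' h3 h2).symm

theorem unif1 (ε : ℝ) (hε : 0 < ε) (hε1 : ε ≤ 1) :
    ∃ C : ℝ, 1 ≤ C ∧ ∀ κ : ℝ, 0 < κ → κ ≤ 1 → ∀ x x' : ℝ, C / κ ^ 40 ≤ x →
      (1 + ε) / κ * Real.sqrt x ≤ x' - x →
      x' - x ≤ κ ^ 3 / C * (Real.sqrt x * Real.sqrt (Real.sqrt x)) →
      ∀ (G : Type w) [CommGroup G] (f : ℕ → G),
        (∀ a b : ℕ, a ≠ 0 → b ≠ 0 → f (a * b) = f a * f b) →
        (∀ m m' : ℕ, x < m → (m : ℝ) ≤ x + κ * Real.sqrt x → x < m' →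
          (m' : ℝ) ≤ x + κ * Real.sqrt x → f m = f m') →
        (∀ m m' : ℕ, x' < m → (m : ℝ) ≤ x' + κ * Real.sqrt x' → x' < m' →
          (m' : ℝ) ≤ x' + κ * Real.sqrt x' → f m = f m') →
        ∀ k : ℕ, k ≠ 0 → ((k : ℝ) ^ 8 ≤ κ ^ 6 / C * x ∨
          (k : ℝ) * (x' - x) ^ 2 ≤ κ ^ 12 / C * (x * Real.sqrt x)) → f k = 1 := by
  obtain ⟨C0, hC01, hrep⟩ := rep.{w}
  obtain ⟨x1, hx1, hlong⟩ := long.{w}
  have hC00 : 0 < C0 := by linarith
  have hx10 : 0 < x1 := by linarith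
  obtain ⟨W, hW⟩ : ∃ W, W = 16 * (5 + 2 * x1) * C0 ^ 5 / ε ^ 2 := ⟨_, rfl⟩
  have hW0 : 0 < W := by rw [hW]; positivity
  obtain ⟨c2, hc2⟩ : ∃ c2, c2 = min (1 / (2 * x1)) (ε ^ 2 / (16 * C0 ^ 4)) := ⟨_, rfl⟩
  have hc20 : 0 < c2 := by rw [hc2]; exact lt_min (by positivity) (by positivity)
  have hc2a : c2 ≤ 1 / (2 * x1) := by rw [hc2]; exact min_le_left _ _
  have hc2b : c2 ≤ ε ^ 2 / (16 * C0 ^ 4) := by rw [hc2]; exact min_le_right _ _
  clear hc2
  obtain ⟨C, hC⟩ : ∃ C, C = C0 + W ^ 2 + (C0 / c2) ^ 8 + 1 / c2 := ⟨_, rfl⟩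
  have hv1 : 0 < W ^ 2 := by positivity
  have hv2 : 0 < (C0 / c2) ^ 8 := by positivity
  have hv3 : 0 < 1 / c2 := by positivity
  have hCa : C0 ≤ C := by rw [hC]; linarith
  have hCb : W ^ 2 ≤ C := by rw [hC]; linarith
  have hCc : (C0 / c2) ^ 8 ≤ C := by rw [hC]; linarith
  have hCd : 1 / c2 ≤ C := by rw [hC]; linarith
  clear hC
  have hC1 : 1 ≤ C := hC01.trans hCa
  have hC0 : 0 < C := by linarith
  refine ⟨C, hC1, ?_⟩
  intro κ hκ hκ1 x x' hxx0 hlo hup G _ f hf hw hw' k hk hkx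
  have hK3 : 0 < κ ^ 3 := pow_pos hκ 3
  have hK31 : κ ^ 3 ≤ 1 := pow_le_one₀ hκ.le hκ1
  obtain ⟨H, hH⟩ : ∃ H, H = C0 / κ ^ 3 := ⟨_, rfl⟩
  have hH1 : 1 ≤ H := by
    rw [hH, le_div_iff₀ hK3]
    linarith
  obtain ⟨δ, hδd⟩ : ∃ δ, δ = ε / (4 * H ^ 2) := ⟨_, rfl⟩
  have hH0 : 0 < H := by linarith
  have hδ : 0 < δ := by rw [hδd]; positivity
  have hδH : 4 * (δ * H ^ 2) = ε := by rw [hδd]; field_simp
  have hδ1 : 4 * δ ≤ ε := by
    have h1 : (1 : ℝ) ≤ H ^ 2 := one_le_pow₀ hH1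
    have h2 : δ * 1 ≤ δ * H ^ 2 := mul_le_mul_of_nonneg_left h1 hδ.le
    linarith
  have hδ4 : δ ≤ 1 / 4 := by linarith
  obtain ⟨j, hj⟩ : ∃ j : ℕ, j = ⌈2 / δ⌉₊ := ⟨_, rfl⟩
  have hjδ : 2 ≤ j * δ := by
    have h1 : 2 / δ ≤ j := by rw [hj]; exact Nat.le_ceil _
    rwa [div_le_iff₀ hδ] at h1
  have hjδ2 : (j : ℝ) * δ ≤ 2 + δ := by
    have h1 : (j : ℝ) < 2 / δ + 1 := by rw [hj]; exact Nat.ceil_lt_add_one (by positivity)
    have h2 : (j : ℝ) * δ ≤ (2 / δ + 1) * δ := mul_le_mul_of_nonneg_right h1.le hδ.le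
    have h3 : (2 / δ + 1) * δ = 2 + δ := by field_simp
    linarith
  have hj1 : 1 ≤ j := by
    rcases Nat.eq_zero_or_pos j with h | h
    · rw [h] at hjδ
      norm_num at hjδ
    · exact h
  have hκ12 : κ ^ 12 ≤ 1 := pow_le_one₀ hκ.le hκ1
  have hκ120 : 0 < κ ^ 12 := by positivity
  have hδsq : δ ^ 2 = ε ^ 2 / (16 * C0 ^ 4) * κ ^ 12 := by
    rw [hδd, hH]; field_simp; ring
  obtain ⟨c1, hc1⟩ : ∃ c1, c1 = c2 * κ ^ 12 := ⟨_, rfl⟩
  have hc10 : 0 < c1 := by rw [hc1]; positivity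
  have hc1a : c1 ≤ 1 / (2 * x1) := by
    rw [hc1]
    have : c2 * κ ^ 12 ≤ c2 * 1 := mul_le_mul_of_nonneg_left hκ12 hc20.le
    linarith
  have hc1b : c1 ≤ δ ^ 2 := by
    rw [hc1, hδsq]
    exact mul_le_mul_of_nonneg_right hc2b hκ120.le
  obtain ⟨M, hM⟩ : ∃ M, M = (5 + 2 * x1) / δ ^ 2 := ⟨_, rfl⟩
  have hδ2le : δ ^ 2 ≤ δ := by
    have : δ * δ ≤ δ * 1 := mul_le_mul_of_nonneg_left (by linarith) hδ.le
    linarith [this, show δ * δ = δ ^ 2 by ring]
  have hMδ : M * δ ^ 2 = 5 + 2 * x1 := by rw [hM]; field_simp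
  have hM0 : 0 < M := by rw [hM]; positivity
  have hMM : 5 + 2 * x1 ≤ M * δ := by
    have : M * δ ^ 2 ≤ M * δ := mul_le_mul_of_nonneg_left hδ2le hM0.le
    linarith
  have hM5 : 5 + 2 * x1 ≤ M := by
    have : M * δ ≤ M * 1 := mul_le_mul_of_nonneg_left (by linarith) hM0.le
    linarith
  have hHM : H * M = W / κ ^ 15 := by
    rw [hM, hδsq, hH, hW]; field_simp
  have hHM0 : 0 < H * M := by positivity
  have hx0 : 0 < x := lt_of_lt_of_le (by positivity) hxx0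
  have hHMx : (H * M) ^ 2 ≤ x := by
    refine le_trans ?_ hxx0
    rw [hHM, div_pow, ← pow_mul]
    exact div_le_div₀ hC0.le hCb (by positivity)
      (pow_le_pow_of_le_one hκ.le hκ1 (by norm_num))
  have hs0 : 0 ≤ Real.sqrt x := Real.sqrt_nonneg _
  have hss0 : 0 ≤ Real.sqrt x * Real.sqrt (Real.sqrt x) := by positivity
  rcases le_total (C0 / κ ^ 3 * Real.sqrt x) (x' - x) with hfar | hnear
  · -- far windows
    have g3 : κ ^ 3 / C ≤ κ ^ 3 / C0 := div_le_div_of_nonneg_left hK3.le hC00 hCa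
    have g6 : κ ^ 6 / C ≤ κ ^ 6 / C0 := div_le_div_of_nonneg_left (by positivity) hC00 hCa
    have g5 : κ ^ 12 / C ≤ κ ^ 5 / C0 :=
      div_le_div₀ (by positivity) (pow_le_pow_of_le_one hκ.le hκ1 (by norm_num)) hC00 hCa
    refine hrep κ hκ hκ1 x x' hx0 (by linarith) ?_ G f hf hw hw' k hk ?_
    · have := mul_le_mul_of_nonneg_right g3 hss0
      linarith
    · rcases hkx with hkx | hkx
      · left
        exact hkx.trans (mul_le_mul_of_nonneg_right g6 hx0.le)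
      · right
        exact hkx.trans (mul_le_mul_of_nonneg_right g5 (by positivity))
  · -- near windows
    rw [← hH] at hnear
    obtain ⟨r, hrd⟩ : ∃ r, r = Real.sqrt x := ⟨_, rfl⟩
    have hxr : x = r ^ 2 := by rw [hrd]; exact (Real.sq_sqrt hx0.le).symm
    have hrHM : H * M ≤ r := by
      rw [hrd]
      exact Real.le_sqrt_of_sq_le hHMx
    have hr : 0 < r := by linarith
    rw [← hrd] at hlo hnear
    obtain ⟨h, hhd⟩ : ∃ h, h = (x' - x) / r := ⟨_, rfl⟩
    have hDh : x' - x = h * r := by rw [hhd]; exact (div_mul_cancel₀ _ hr.ne').symm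
    rw [hDh] at hlo hnear
    have hh1 : (1 + ε) / κ ≤ h := le_of_mul_le_mul_right hlo hr
    have hhH : h ≤ H := le_of_mul_le_mul_right hnear hr
    have hhκ : 1 + ε ≤ κ * h := by
      rw [div_le_iff₀ hκ] at hh1
      linarith
    have hh0 : 0 < h := lt_of_lt_of_le (by positivity) hh1
    have hhge1 : 1 ≤ h := by
      have : κ * h ≤ 1 * h := mul_le_mul_of_nonneg_right hκ1 hh0.le
      linarith
    obtain ⟨B, hBd⟩ : ∃ B, B = r / h := ⟨_, rfl⟩
    have hhB : h * B = r := by rw [hBd]; field_simp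
    have hBM : M ≤ B := by
      rw [hBd, le_div_iff₀ hh0]
      have : M * h ≤ M * H := mul_le_mul_of_nonneg_left hhH hM0.le
      linarith
    have hB0 : 0 < B := by linarith
    have hBδ : 5 + 2 * x1 ≤ B * δ := by
      have : M * δ ≤ B * δ := mul_le_mul_of_nonneg_right hBM hδ.le
      linarith
    have hBδ2 : 5 + 2 * x1 ≤ B * δ ^ 2 := by
      have : M * δ ^ 2 ≤ B * δ ^ 2 := mul_le_mul_of_nonneg_right hBM (by positivity)
      linarith
    have hxB : h ^ 2 * B ^ 2 = x := by rw [hxr, ← hhB]; ring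
    have hDB : h ^ 2 * B ^ 2 + h ^ 2 * B = x' := by
      have : h ^ 2 * B = x' - x := by rw [hDh, ← hhB]; ring
      rw [hxB, this]; ring
    have hsB : κ * h * B = κ * r := by rw [mul_assoc, hhB]
    have hxx : x ≤ x' := by
      have : 0 < h * r := by positivity
      linarith
    have hx'0 : 0 < x' := by linarith
    have hrr : r ≤ Real.sqrt x' := by rw [hrd]; exact Real.sqrt_le_sqrt hxx
    have hKrr : κ * r ≤ κ * Real.sqrt x' := mul_le_mul_of_nonneg_left hrr hκ.le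
    have hKr1 : 1 ≤ κ * r := by
      have h1 : (1 + ε) * B ≤ κ * h * B := mul_le_mul_of_nonneg_right hhκ hB0.le
      have h2 : 0 < ε * B := by positivity
      rw [hsB] at h1
      linarith
    rw [← hrd] at hw
    have hstep := near f hf κ ε δ h H B hε hε1 hδ hδ1 hδH.le hh0 hhκ hhH j hj1 hjδ
      (by
        have h1 : 4 * δ * B ≤ ε * B := mul_le_mul_of_nonneg_right hδ1 hB0.le
        linarith)
      (by
        refine le_of_mul_le_mul_right ?_ hδ
        linarith [hjδ2, hBδ2, hδ4, show 3 * (δ * B) * δ = 3 * (B * δ ^ 2) by ring,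
          show 2 * (2 * (j : ℝ) + 1) * δ = 4 * (j * δ) + 2 * δ by ring])
      (f (⌊x⌋₊ + 1)) (f (⌊x'⌋₊ + 1))
      (by
        intro n hn1 hn2
        rw [hxB] at hn1 hn2
        rw [hsB] at hn2
        refine hw n (⌊x⌋₊ + 1) hn1 hn2 ?_ ?_
        · push_cast; exact Nat.lt_floor_add_one x
        · push_cast
          have := Nat.floor_le hx0.le
          linarith)
      (by
        intro n hn1 hn2
        rw [hDB] at hn1 hn2
        rw [hsB] at hn2
        refine hw' n (⌊x'⌋₊ + 1) hn1 (by linarith) ?_ ?_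
        · push_cast; exact Nat.lt_floor_add_one x'
        · push_cast
          have := Nat.floor_le hx'0.le
          linarith)
    have hconst := const_of_step f ((1 - δ) * B) ((1 + δ) * B) hstep
    have hA0 : 0 ≤ (1 - δ) * B := mul_nonneg (by linarith) hB0.le
    have hAhalf : B / 2 ≤ (1 - δ) * B := by
      have : δ * B ≤ 1 / 4 * B := mul_le_mul_of_nonneg_right hδ4 hB0.le
      linarith
    have hAB : (1 - δ) * B ≤ B := by
      have : 0 ≤ δ * B := by positivity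
      linarith
    have hδB2 : B ≤ (δ * B) ^ 2 := by
      have h2 : B * 1 ≤ B * (B * δ ^ 2) := mul_le_mul_of_nonneg_left (by linarith) hB0.le
      linarith [h2, show B * (B * δ ^ 2) = (δ * B) ^ 2 by ring]
    have hkB : k ≤ c1 * B := by
      rcases hkx with hkx | hkx
      · refine le_of_pow_le_pow_left₀ (n := 8) (by norm_num) (by positivity) ?_
        refine hkx.trans ?_
        have h3 : r ≤ H * B := by
          rw [← hhB]
          exact mul_le_mul_of_nonneg_right hhH hB0.le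
        have h4 : c2 / C0 * κ ^ 15 * r ≤ c1 * B := by
          have h5 : c2 / C0 * κ ^ 15 * r ≤ c2 / C0 * κ ^ 15 * (H * B) :=
            mul_le_mul_of_nonneg_left h3 (by positivity)
          have h6 : c2 / C0 * κ ^ 15 * (H * B) = c1 * B := by
            rw [hH, hc1]; field_simp
          linarith
        have h7 : (c2 / C0 * κ ^ 15 * r) ^ 8 ≤ (c1 * B) ^ 8 :=
          pow_le_pow_left₀ (by positivity) h4 8
        refine le_trans ?_ h7
        have h8 : (c2 / C0 * κ ^ 15 * r) ^ 8 = (c2 / C0) ^ 8 * (κ ^ 40 * x) ^ 3 * x := by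
          rw [hxr]; ring
        rw [h8]
        refine mul_le_mul_of_nonneg_right ?_ hx0.le
        have h9 : C ≤ κ ^ 40 * x := by
          rw [div_le_iff₀ (by positivity)] at hxx0
          linarith
        have h10 : C ≤ (κ ^ 40 * x) ^ 3 := by
          have h11 : C ^ 3 ≤ (κ ^ 40 * x) ^ 3 := pow_le_pow_left₀ hC0.le h9 3
          have h12 : C ^ 1 ≤ C ^ 3 := pow_le_pow_right₀ hC1 (by norm_num)
          rw [pow_one] at h12
          linarith
        have h13 : 1 ≤ (c2 / C0) ^ 8 * (κ ^ 40 * x) ^ 3 := by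
          have h14 : (c2 / C0) ^ 8 * (C0 / c2) ^ 8 = 1 := by
            rw [← mul_pow]
            have : c2 / C0 * (C0 / c2) = 1 := by field_simp
            rw [this, one_pow]
          have h15 : (c2 / C0) ^ 8 * (C0 / c2) ^ 8 ≤ (c2 / C0) ^ 8 * (κ ^ 40 * x) ^ 3 :=
            mul_le_mul_of_nonneg_left (hCc.trans h10) (by positivity)
          linarith
        have h16 : κ ^ 6 / C ≤ 1 := by
          rw [div_le_one hC0]
          exact (pow_le_one₀ hκ.le hκ1).trans hC1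
        linarith
      · rw [← hrd, hDh, hxr] at hkx
        have h1 : (k : ℝ) * h ^ 2 ≤ κ ^ 12 / C * r := by
          refine le_of_mul_le_mul_right ?_ (show (0 : ℝ) < r ^ 2 by positivity)
          linarith [hkx, show (k : ℝ) * h ^ 2 * r ^ 2 = k * (h * r) ^ 2 by ring,
            show κ ^ 12 / C * r * r ^ 2 = κ ^ 12 / C * (r ^ 2 * r) by ring]
        have h2 : (k : ℝ) * h ≤ κ ^ 12 / C * B := by
          refine le_of_mul_le_mul_right ?_ hh0
          linarith [h1, show (k : ℝ) * h * h = k * h ^ 2 by ring,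
            show κ ^ 12 / C * B * h = κ ^ 12 / C * (h * B) by ring,
            show κ ^ 12 / C * (h * B) = κ ^ 12 / C * r by rw [hhB]]
        have h3 : (k : ℝ) * 1 ≤ k * h := mul_le_mul_of_nonneg_left hhge1 (Nat.cast_nonneg k)
        have h5 : κ ^ 12 / C ≤ c1 := by
          rw [hc1, div_le_iff₀ hC0]
          rw [div_le_iff₀ hc20] at hCd
          have h6 : κ ^ 12 * 1 ≤ κ ^ 12 * (C * c2) := mul_le_mul_of_nonneg_left hCd hκ120.le
          linarith
        have h4 : κ ^ 12 / C * B ≤ c1 * B := mul_le_mul_of_nonneg_right h5 hB0.le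
        linarith
    refine hlong ((1 - δ) * B) (δ * B) (by linarith) ?_ G f hf ?_ k hk ?_ ?_
    · rw [Real.sqrt_le_iff]
      exact ⟨by positivity, hAB.trans hδB2⟩
    · intro m m' a b c' d
      exact hconst m m' a (by linarith) c' (by linarith)
    · have h1 : (k : ℝ) * x1 ≤ c1 * B * x1 := mul_le_mul_of_nonneg_right hkB hx10.le
      have h2 : c1 * (B * x1) ≤ 1 / (2 * x1) * (B * x1) :=
        mul_le_mul_of_nonneg_right hc1a (by positivity)
      have h3 : 1 / (2 * x1) * (B * x1) = B / 2 := by field_simp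
      linarith
    · have h1 : (k : ℝ) * ((1 - δ) * B) ≤ k * B :=
        mul_le_mul_of_nonneg_left hAB (Nat.cast_nonneg k)
      have h2 : (k : ℝ) * B ≤ c1 * B * B := mul_le_mul_of_nonneg_right hkB hB0.le
      have h3 : c1 * (B * B) ≤ δ ^ 2 * (B * B) := mul_le_mul_of_nonneg_right hc1b (by positivity)
      linarith [h1, h2, h3, show (δ * B) ^ 2 = δ ^ 2 * (B * B) by ring]

theorem unif (ε : ℝ) (hε : 0 < ε) :
    ∃ C : ℝ, 1 ≤ C ∧ ∀ κ : ℝ, 0 < κ → κ ≤ 1 → ∀ x x' : ℝ, C / κ ^ 40 ≤ x →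
      (1 + ε) / κ * Real.sqrt x ≤ x' - x →
      x' - x ≤ κ ^ 3 / C * (Real.sqrt x * Real.sqrt (Real.sqrt x)) →
      ∀ (G : Type w) [CommGroup G] (f : ℕ → G),
        (∀ a b : ℕ, a ≠ 0 → b ≠ 0 → f (a * b) = f a * f b) →
        (∀ m m' : ℕ, x < m → (m : ℝ) ≤ x + κ * Real.sqrt x → x < m' →
          (m' : ℝ) ≤ x + κ * Real.sqrt x → f m = f m') →
        (∀ m m' : ℕ, x' < m → (m : ℝ) ≤ x' + κ * Real.sqrt x' → x' < m' →
          (m' : ℝ) ≤ x' + κ * Real.sqrt x' → f m = f m') →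
        ∀ k : ℕ, k ≠ 0 → ((k : ℝ) ^ 8 ≤ κ ^ 6 / C * x ∨
          (k : ℝ) * (x' - x) ^ 2 ≤ κ ^ 12 / C * (x * Real.sqrt x)) → f k = 1 := by
  obtain ⟨C, hC, h⟩ := unif1.{w} (min ε 1) (lt_min hε one_pos) (min_le_right _ _)
  refine ⟨C, hC, fun κ hκ hκ1 x x' hx hlo hup => h κ hκ hκ1 x x' hx (le_trans ?_ hlo) hup⟩
  refine mul_le_mul_of_nonneg_right ?_ (Real.sqrt_nonneg _)
  exact div_le_div_of_nonneg_right (by linarith [min_le_left ε 1]) hκ.le

end Pool.Agent.Helper53.RW
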