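import Mathlib
import Pool.Agent.Helper53.RW.Sharp
import Pool.Agent.Helper38.PJ.Final

/-!
# Two windows at a distance near an integer multiple of `√x`: the joint theorem
-/

set_option autoImplicit false

namespace Pool.Agent.Helper53.RW

universe w

/-- Near part, all `1 ≤ h ≤ J` at once. -/
theorem near_real (κ θ : ℝ) (hθ : 0 ≤ θ) (hκ : θ < κ) (J : ℕ) :
    ∃ c : ℝ, 0 < c ∧ ∃ x0 : ℝ, ∀ h : ℕ, 1 ≤ h → h ≤ J → ∀ x x' : ℝ, x0 ≤ x →
    |x' - x - h * Real.sqrt x| ≤ θ * Real.sqrt x →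
    ∀ (G : Type w) [CommGroup G] (f : ℕ → G),
      (∀ a b : ℕ, a ≠ 0 → b ≠ 0 → f (a * b) = f a * f b) →
      (∀ m m' : ℕ, x < m → (m : ℝ) ≤ x + κ * Real.sqrt x → x < m' →
        (m' : ℝ) ≤ x + κ * Real.sqrt x → f m = f m') →
      (∀ m m' : ℕ, x' < m → (m : ℝ) ≤ x' + κ * Real.sqrt x → x' < m' →
        (m' : ℝ) ≤ x' + κ * Real.sqrt x → f m = f m') →
      (∀ m : ℕ, x < m → (m : ℝ) ≤ x + κ * Real.sqrt x → f m = 1) ∧
      (∀ m : ℕ, x' < m → (m : ℝ) ≤ x' + κ * Real.sqrt x → f m = 1) ∧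
      ∀ k : ℕ, k ≠ 0 → (k : ℝ) ≤ c * Real.sqrt (Real.sqrt x) → f k = 1 := by
  induction J with
  | zero => exact ⟨1, one_pos, 0, fun j h1 h2 => by omega⟩
  | succ J ih =>
    obtain ⟨c1, hc1, n1, h1⟩ := ih
    obtain ⟨c2, hc2, n2, h2⟩ :=
      Pool.Agent.Helper38.PJ.final.{w} κ θ hθ hκ (J + 1) (by omega)
    refine ⟨min c1 c2, lt_min hc1 hc2, max n1 n2, ?_⟩
    intro h hj1 hj2 x x' hx hxx G _ f hf hw hw'
    have hs : 0 ≤ Real.sqrt (Real.sqrt x) := Real.sqrt_nonneg _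
    rcases Nat.lt_or_ge h (J + 1) with hlt | hge
    · obtain ⟨a, b, c⟩ := h1 h hj1 (by omega) x x' ((le_max_left _ _).trans hx) hxx G f hf hw hw'
      exact ⟨a, b, fun k hk hkx => c k hk
        (hkx.trans (mul_le_mul_of_nonneg_right (min_le_left _ _) hs))⟩
    · have hjJ : h = J + 1 := by omega
      subst hjJ
      obtain ⟨a, b, c⟩ := h2 x x' ((le_max_right _ _).trans hx) hxx G f hf hw hw'
      exact ⟨a, b, fun k hk hkx => c k hk
        (hkx.trans (mul_le_mul_of_nonneg_right (min_le_right _ _) hs))⟩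

private theorem eighth (x : ℝ) (hx : 0 ≤ x) : Real.sqrt (Real.sqrt (Real.sqrt x)) ^ 8 = x := by
  rw [show (8 : ℕ) = 2 * (2 * 2) by norm_num, pow_mul, pow_mul, Real.sq_sqrt (Real.sqrt_nonneg _),
    Real.sq_sqrt (Real.sqrt_nonneg _), Real.sq_sqrt hx]

theorem two (κ θ : ℝ) (hθ : 0 ≤ θ) (hκ : θ < κ) (H : ℕ) :
    ∃ c : ℝ, 0 < c ∧ ∃ x0 : ℝ, ∀ x x' : ℝ, x0 ≤ x → ∀ h : ℕ, 1 ≤ h →
    |x' - x - h * Real.sqrt x| ≤ θ * Real.sqrt x →
    x' - x ≤ c * (Real.sqrt x * Real.sqrt (Real.sqrt x)) →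
    ∀ (G : Type w) [CommGroup G] (f : ℕ → G),
      (∀ a b : ℕ, a ≠ 0 → b ≠ 0 → f (a * b) = f a * f b) →
      (∀ m m' : ℕ, x < m → (m : ℝ) ≤ x + κ * Real.sqrt x → x < m' →
        (m' : ℝ) ≤ x + κ * Real.sqrt x → f m = f m') →
      (∀ m m' : ℕ, x' < m → (m : ℝ) ≤ x' + κ * Real.sqrt x → x' < m' →
        (m' : ℝ) ≤ x' + κ * Real.sqrt x → f m = f m') →
      (∀ k : ℕ, k ≠ 0 → ((k : ℝ) ≤ c * Real.sqrt (Real.sqrt (Real.sqrt x)) ∨
        ((k : ℝ) ≤ c * Real.sqrt (Real.sqrt x) ∧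
          (k : ℝ) * (x' - x) ^ 2 ≤ c * (x * Real.sqrt x))) → f k = 1) ∧
      (h ≤ H → (∀ m : ℕ, x < m → (m : ℝ) ≤ x + κ * Real.sqrt x → f m = 1) ∧
        ∀ m : ℕ, x' < m → (m : ℝ) ≤ x' + κ * Real.sqrt x → f m = 1) := by
  have hκ0 : 0 < κ := by linarith
  obtain ⟨K, hK⟩ : ∃ K, K = min κ 1 / 2 := ⟨_, rfl⟩
  have hK0 : 0 < K := by rw [hK]; exact half_pos (lt_min hκ0 one_pos)
  have hKκ : 2 * K ≤ κ := by rw [hK]; linarith [min_le_left κ 1]
  have hK1 : K ≤ 1 := by rw [hK]; linarith [min_le_right κ 1]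
  obtain ⟨C0, hC0, hfar⟩ := unif.{w} 1 one_pos
  have hC0p : 0 < C0 := by linarith
  obtain ⟨J, hJ⟩ := exists_nat_ge (max (H : ℝ) (2 / K + θ))
  have hJ1 : (H : ℝ) ≤ J := (le_max_left _ _).trans hJ
  have hJ2 : 2 / K + θ ≤ J := (le_max_right _ _).trans hJ
  obtain ⟨c1, hc1, x1, hnear⟩ := near_real.{w} κ θ hθ hκ J
  obtain ⟨c2, hc2⟩ : ∃ c2, c2 = K ^ 12 / C0 := ⟨_, rfl⟩
  have hc20 : 0 < c2 := by rw [hc2]; positivity
  have hc21 : c2 ≤ 1 := by
    rw [hc2, div_le_one hC0p]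
    exact (pow_le_one₀ hK0.le hK1).trans hC0
  have hc23 : c2 ≤ K ^ 3 / C0 := by
    rw [hc2]
    exact div_le_div_of_nonneg_right (pow_le_pow_of_le_one hK0.le hK1 (by norm_num)) hC0p.le
  have hc26 : c2 ≤ K ^ 6 / C0 := by
    rw [hc2]
    exact div_le_div_of_nonneg_right (pow_le_pow_of_le_one hK0.le hK1 (by norm_num)) hC0p.le
  refine ⟨min c1 c2, lt_min hc1 hc20, max (max x1 (C0 / K ^ 40)) 1, ?_⟩
  intro x x' hx h hh hxx hup G _ f hf hw hw'
  have hxa : x1 ≤ x := (le_max_left _ _).trans ((le_max_left _ _).trans hx)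
  have hxb : C0 / K ^ 40 ≤ x := (le_max_right _ _).trans ((le_max_left _ _).trans hx)
  have hx1 : 1 ≤ x := (le_max_right _ _).trans hx
  have hx0 : 0 < x := by linarith
  have hs1 : 1 ≤ Real.sqrt x := Real.one_le_sqrt.mpr hx1
  have hs0 : 0 < Real.sqrt x := by linarith
  have hss1 : 1 ≤ Real.sqrt (Real.sqrt x) := Real.one_le_sqrt.mpr hs1
  have hss0 : 0 < Real.sqrt (Real.sqrt x) := by linarith
  have hsss0 : 0 ≤ Real.sqrt (Real.sqrt (Real.sqrt x)) := Real.sqrt_nonneg _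
  have hsqle : ∀ y : ℝ, 1 ≤ y → Real.sqrt y ≤ y := by
    intro y hy
    rw [Real.sqrt_le_left (by linarith)]
    have : y * 1 ≤ y * y := mul_le_mul_of_nonneg_left hy (by linarith)
    linarith [this, show y * y = y ^ 2 by ring]
  have hcpos : 0 < min c1 c2 := lt_min hc1 hc20
  rcases Nat.lt_or_ge J h with hlt | hge
  · -- far
    have hhJ : (J : ℝ) + 1 ≤ h := by exact_mod_cast hlt
    have hnot : ¬ h ≤ H := by
      intro h1
      have h2 : (h : ℝ) ≤ H := by exact_mod_cast h1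
      linarith
    refine ⟨?_, fun h1 => absurd h1 hnot⟩
    intro k hk hkx
    obtain ⟨hab, -⟩ := abs_le.mp hxx
    have hd : 2 / K * Real.sqrt x ≤ x' - x := by
      have h1 : (2 / K + θ) * Real.sqrt x ≤ h * Real.sqrt x :=
        mul_le_mul_of_nonneg_right (by linarith) hs0.le
      linarith
    have hd0 : 0 < x' - x := lt_of_lt_of_le (by positivity) hd
    have hup2 : x' - x ≤ c2 * (Real.sqrt x * Real.sqrt (Real.sqrt x)) :=
      hup.trans (mul_le_mul_of_nonneg_right (min_le_right _ _) (by positivity))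
    have hx'4 : x' ≤ 4 * x := by
      have h1 : Real.sqrt x * Real.sqrt (Real.sqrt x) ≤ x := by
        have h2 : Real.sqrt x * Real.sqrt (Real.sqrt x) ≤ Real.sqrt x * Real.sqrt x :=
          mul_le_mul_of_nonneg_left (hsqle _ hs1) hs0.le
        rwa [Real.mul_self_sqrt hx0.le] at h2
      have h3 : c2 * (Real.sqrt x * Real.sqrt (Real.sqrt x)) ≤ 1 * x :=
        mul_le_mul hc21 h1 (by positivity) (by norm_num)
      linarith
    have hsx' : Real.sqrt x' ≤ 2 * Real.sqrt x := by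
      have h1 : Real.sqrt x' ≤ Real.sqrt (4 * x) := Real.sqrt_le_sqrt hx'4
      have h2 : Real.sqrt (4 * x) = 2 * Real.sqrt x := by
        rw [show (4 : ℝ) = 2 ^ 2 by norm_num, Real.sqrt_mul (by norm_num),
          Real.sqrt_sq (by norm_num)]
      linarith
    have hKx : K * Real.sqrt x ≤ κ * Real.sqrt x :=
      mul_le_mul_of_nonneg_right (by linarith) hs0.le
    have hKx' : K * Real.sqrt x' ≤ κ * Real.sqrt x := by
      have h1 : K * Real.sqrt x' ≤ K * (2 * Real.sqrt x) :=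
        mul_le_mul_of_nonneg_left hsx' hK0.le
      have h2 : 2 * K * Real.sqrt x ≤ κ * Real.sqrt x :=
        mul_le_mul_of_nonneg_right hKκ hs0.le
      linarith
    refine hfar K hK0 hK1 x x' hxb ?_ ?_ G f hf
      (fun m m' a b c' d => hw m m' a (by linarith) c' (by linarith))
      (fun m m' a b c' d => hw' m m' a (by linarith) c' (by linarith)) k hk ?_
    · have : (1 + 1) / K * Real.sqrt x = 2 / K * Real.sqrt x := by norm_num
      linarith
    · exact hup2.trans (mul_le_mul_of_nonneg_right hc23 (by positivity))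
    · rcases hkx with hkx | hkx
      · left
        have h1 : (k : ℝ) ≤ c2 * Real.sqrt (Real.sqrt (Real.sqrt x)) :=
          hkx.trans (mul_le_mul_of_nonneg_right (min_le_right _ _) hsss0)
        have h2 : (k : ℝ) ^ 8 ≤ (c2 * Real.sqrt (Real.sqrt (Real.sqrt x))) ^ 8 :=
          pow_le_pow_left₀ (Nat.cast_nonneg k) h1 8
        rw [mul_pow, eighth x hx0.le] at h2
        have h3 : c2 ^ 8 ≤ c2 := pow_le_of_le_one hc20.le hc21 (by norm_num)
        exact h2.trans (mul_le_mul_of_nonneg_right (h3.trans hc26) hx0.le)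
      · right
        have h3 : min c1 c2 * (x * Real.sqrt x) ≤ c2 * (x * Real.sqrt x) :=
          mul_le_mul_of_nonneg_right (min_le_right _ _) (by positivity)
        rw [← hc2]
        exact hkx.2.trans h3
  · -- near
    obtain ⟨a, b, c⟩ := hnear h hh hge x x' hxa hxx G f hf hw hw'
    refine ⟨fun k hk hkx => c k hk ?_, fun _ => ⟨a, b⟩⟩
    rcases hkx with hkx | hkx
    · exact hkx.trans (mul_le_mul (min_le_left _ _) (hsqle _ hss1) hsss0 hc1.le)
    · exact hkx.1.trans (mul_le_mul_of_nonneg_right (min_le_left _ _) hss0.le)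

end Pool.Agent.Helper53.RW
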