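import Mathlib
import Pool.Agent.Helper53.RW.Sharp
import Pool.Agent.Helper38.PI.FinalTwo

/-!
# Windows behind two squares: the joint theorem
-/

set_option autoImplicit false

namespace Pool.Agent.Helper53.RW

universe w

/-- Far part for the windows behind squares, any abelian group: the distance of `n` and `n'` is
between `1 / κ` and `c √n`. -/
theorem far_sq (κ : ℝ) (hκ : 0 < κ) (hκ1 : κ ≤ 1) : ∃ c : ℝ, 0 < c ∧ ∃ n0 : ℕ, ∀ n n' : ℕ,
    n0 ≤ n → 1 / κ ≤ (n' : ℝ) - n → (n' : ℝ) ≤ n + c * Real.sqrt n →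
    ∀ (G : Type w) [CommGroup G] (f : ℕ → G),
      (∀ a b : ℕ, a ≠ 0 → b ≠ 0 → f (a * b) = f a * f b) →
      (∀ m m' : ℕ, (n : ℝ) ^ 2 < m → (m : ℝ) ≤ (n : ℝ) ^ 2 + κ * n → (n : ℝ) ^ 2 < m' →
        (m' : ℝ) ≤ (n : ℝ) ^ 2 + κ * n → f m = f m') →
      (∀ m m' : ℕ, (n' : ℝ) ^ 2 < m → (m : ℝ) ≤ (n' : ℝ) ^ 2 + κ * n' → (n' : ℝ) ^ 2 < m' →
        (m' : ℝ) ≤ (n' : ℝ) ^ 2 + κ * n' → f m = f m') →
      ∀ k : ℕ, k ≠ 0 → ((k : ℝ) ≤ c * Real.sqrt (Real.sqrt n) ∨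
        (k : ℝ) * ((n' : ℝ) - n) ^ 2 ≤ c * n) → f k = 1 := by
  obtain ⟨C0, hC0, h⟩ := unif.{w} 1 one_pos
  have hC0p : 0 < C0 := by linarith
  have hK3 : 0 < κ ^ 3 := pow_pos hκ 3
  have hK31 : κ ^ 3 ≤ 1 := pow_le_one₀ hκ.le hκ1
  obtain ⟨c, hc⟩ : ∃ c, c = κ ^ 12 / (9 * C0) := ⟨_, rfl⟩
  have hc0 : 0 < c := by rw [hc]; positivity
  have hK12 : κ ^ 12 ≤ κ ^ 3 := pow_le_pow_of_le_one hκ.le hκ1 (by norm_num)
  have hc1 : c ≤ 1 := by
    rw [hc, div_le_one (by positivity)]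
    linarith
  have hc3 : 3 * c ≤ κ ^ 3 / C0 := by
    rw [hc, le_div_iff₀ hC0p]
    have h1 : 3 * (κ ^ 12 / (9 * C0)) * C0 = κ ^ 12 / 3 := by field_simp; ring
    linarith
  obtain ⟨n0, hn0⟩ := exists_nat_ge (C0 / κ ^ 40 + 1)
  have hn01 : (1 : ℝ) ≤ n0 := by
    have : 0 < C0 / κ ^ 40 := by positivity
    linarith
  refine ⟨c, hc0, n0, fun n n' hn hlo hup G _ f hf hw hw' k hk hkx => ?_⟩
  have hnr : (n0 : ℝ) ≤ n := by exact_mod_cast hn
  have hn1 : (1 : ℝ) ≤ n := by linarith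
  have hnp : (0 : ℝ) < n := by linarith
  have hnn : (n : ℝ) * 1 ≤ n * n := mul_le_mul_of_nonneg_left hn1 hnp.le
  have hsq : Real.sqrt ((n : ℝ) ^ 2) = n := Real.sqrt_sq hnp.le
  have hsq' : Real.sqrt ((n' : ℝ) ^ 2) = n' := Real.sqrt_sq (Nat.cast_nonneg n')
  have hd0 : 0 < (n' : ℝ) - n := lt_of_lt_of_le (by positivity) hlo
  obtain ⟨q, hqd⟩ : ∃ q, q = Real.sqrt (n : ℝ) := ⟨_, rfl⟩
  have hq0 : 0 < q := by rw [hqd]; exact Real.sqrt_pos.mpr hnp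
  have hqn : q ^ 2 = n := by rw [hqd]; exact Real.sq_sqrt hnp.le
  have hq1 : 1 ≤ q := by rw [hqd]; exact Real.one_le_sqrt.mpr hn1
  have hqle : q ≤ n := by
    have : q * 1 ≤ q * q := mul_le_mul_of_nonneg_left hq1 hq0.le
    linarith [this, show q * q = q ^ 2 by ring]
  rw [← hqd] at hup
  have hdn : (n' : ℝ) - n ≤ n := by
    have : c * q ≤ 1 * q := mul_le_mul_of_nonneg_right hc1 hq0.le
    linarith
  have hfac : (n' : ℝ) ^ 2 - n ^ 2 = ((n' : ℝ) - n) * ((n' : ℝ) + n) := by ring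
  refine h κ hκ hκ1 ((n : ℝ) ^ 2) ((n' : ℝ) ^ 2) ?_ ?_ ?_ G f hf
    (fun m m' a b c' d => hw m m' a (by rwa [hsq] at b) c' (by rwa [hsq] at d))
    (fun m m' a b c' d => hw' m m' a (by rwa [hsq'] at b) c' (by rwa [hsq'] at d)) k hk
    ?_
  · linarith [hnn, show (n : ℝ) * n = n ^ 2 by ring]
  · rw [hsq, hfac]
    have h4 : 1 / κ * (2 * n) ≤ ((n' : ℝ) - n) * ((n' : ℝ) + n) :=
      mul_le_mul hlo (by linarith) (by positivity) hd0.le
    have h5 : (1 + 1) / κ * (n : ℝ) = 1 / κ * (2 * n) := by ring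
    linarith
  · rw [hsq, ← hqd, hfac]
    have h4 : ((n' : ℝ) - n) * ((n' : ℝ) + n) ≤ c * q * (3 * n) :=
      mul_le_mul (by linarith) (by linarith) (by positivity) (by positivity)
    have h5 : 3 * c * (n * q) ≤ κ ^ 3 / C0 * (n * q) :=
      mul_le_mul_of_nonneg_right hc3 (by positivity)
    linarith
  · rcases hkx with hkx | hkx
    · left
      rw [← hqd] at hkx
      have h2 : (k : ℝ) ^ 8 ≤ (c * Real.sqrt q) ^ 8 :=
        pow_le_pow_left₀ (Nat.cast_nonneg k) hkx 8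
      have h3 : (c * Real.sqrt q) ^ 8 = c ^ 8 * n ^ 2 := by
        rw [mul_pow, show (8 : ℕ) = 2 * 4 by norm_num, pow_mul (Real.sqrt q) 2 4,
          Real.sq_sqrt hq0.le, ← hqn]
        ring
      have h4 : c ^ 8 ≤ κ ^ 6 / C0 := by
        have h5 : c ^ 8 ≤ c ^ 1 := pow_le_pow_of_le_one hc0.le hc1 (by norm_num)
        have h7 : c ≤ κ ^ 6 / C0 := by
          rw [hc]
          exact div_le_div₀ (by positivity) (pow_le_pow_of_le_one hκ.le hκ1 (by norm_num))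
            hC0p (by linarith)
        rw [pow_one] at h5
        linarith
      have h8 : c ^ 8 * (n : ℝ) ^ 2 ≤ κ ^ 6 / C0 * n ^ 2 :=
        mul_le_mul_of_nonneg_right h4 (by positivity)
      linarith
    · right
      rw [hsq, hfac]
      have h1 : ((n' : ℝ) + n) ^ 2 ≤ (3 * n) ^ 2 :=
        pow_le_pow_left₀ (by linarith) (by linarith) 2
      have h2 : (k : ℝ) * (((n' : ℝ) - n) * ((n' : ℝ) + n)) ^ 2
          = (k : ℝ) * ((n' : ℝ) - n) ^ 2 * ((n' : ℝ) + n) ^ 2 := by ring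
      have h3 : (k : ℝ) * ((n' : ℝ) - n) ^ 2 * ((n' : ℝ) + n) ^ 2 ≤ c * n * (3 * n) ^ 2 :=
        mul_le_mul hkx h1 (by positivity) (by positivity)
      have h4 : c * n * (3 * n) ^ 2 = κ ^ 12 / C0 * ((n : ℝ) ^ 2 * n) := by
        rw [hc]; field_simp; ring
      linarith

/-- Near part, all distances `1 ≤ j ≤ J` at once. -/
theorem near_all (κ : ℝ) (hκ : 0 < κ) (J : ℕ) :
    ∃ c : ℝ, 0 < c ∧ ∃ n0 : ℕ, ∀ j : ℕ, 1 ≤ j → j ≤ J → ∀ n : ℕ, n0 ≤ n →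
    ∀ (G : Type w) [CommGroup G] (f : ℕ → G),
      (∀ a b : ℕ, a ≠ 0 → b ≠ 0 → f (a * b) = f a * f b) →
      (∀ m m' : ℕ, (n : ℝ) ^ 2 < m → (m : ℝ) ≤ (n : ℝ) ^ 2 + κ * n → (n : ℝ) ^ 2 < m' →
        (m' : ℝ) ≤ (n : ℝ) ^ 2 + κ * n → f m = f m') →
      (∀ m m' : ℕ, ((n : ℝ) + j) ^ 2 < m → (m : ℝ) ≤ ((n : ℝ) + j) ^ 2 + κ * n →
        ((n : ℝ) + j) ^ 2 < m' → (m' : ℝ) ≤ ((n : ℝ) + j) ^ 2 + κ * n → f m = f m') →
      ∀ k : ℕ, k ≠ 0 → (k : ℝ) ≤ c * Real.sqrt n → f k = 1 := by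
  induction J with
  | zero => exact ⟨1, one_pos, 0, fun j h1 h2 => by omega⟩
  | succ J ih =>
    obtain ⟨c1, hc1, n1, h1⟩ := ih
    obtain ⟨c2, hc2, n2, h2⟩ :=
      Pool.Agent.Helper38.PI.near_two.{w} κ hκ (J + 1) (by omega)
    refine ⟨min c1 c2, lt_min hc1 hc2, max n1 n2, ?_⟩
    intro j hj1 hj2 n hn G _ f hf hw hw' k hk hkx
    have hs : 0 ≤ Real.sqrt n := Real.sqrt_nonneg _
    rcases Nat.lt_or_ge j (J + 1) with hlt | hge
    · exact h1 j hj1 (by omega) n ((le_max_left _ _).trans hn) G f hf hw hw' k hk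
        (hkx.trans (mul_le_mul_of_nonneg_right (min_le_left _ _) hs))
    · have hjJ : j = J + 1 := by omega
      subst hjJ
      exact h2 n ((le_max_right _ _).trans hn) G f hf hw hw' k hk
        (hkx.trans (mul_le_mul_of_nonneg_right (min_le_right _ _) hs))

/-- Joint theorem for the windows behind squares. -/
theorem joint (κ : ℝ) (hκ : 0 < κ) :
    ∃ c : ℝ, 0 < c ∧ ∃ n0 : ℕ, ∀ n n' : ℕ, n0 ≤ n → n < n' → (n' : ℝ) ≤ n + c * Real.sqrt n →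
    ∀ (G : Type w) [CommGroup G] (f : ℕ → G),
      (∀ a b : ℕ, a ≠ 0 → b ≠ 0 → f (a * b) = f a * f b) →
      (∀ m m' : ℕ, (n : ℝ) ^ 2 < m → (m : ℝ) ≤ (n : ℝ) ^ 2 + κ * n → (n : ℝ) ^ 2 < m' →
        (m' : ℝ) ≤ (n : ℝ) ^ 2 + κ * n → f m = f m') →
      (∀ m m' : ℕ, (n' : ℝ) ^ 2 < m → (m : ℝ) ≤ (n' : ℝ) ^ 2 + κ * n' → (n' : ℝ) ^ 2 < m' →
        (m' : ℝ) ≤ (n' : ℝ) ^ 2 + κ * n' → f m = f m') →
      ∀ k : ℕ, k ≠ 0 → (k : ℝ) ≤ c * max (Real.sqrt (Real.sqrt n))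
        (min (Real.sqrt n) (n / ((n' : ℝ) - n) ^ 2)) → f k = 1 := by
  obtain ⟨K, hK⟩ : ∃ K, K = min κ 1 := ⟨_, rfl⟩
  have hK0 : 0 < K := by rw [hK]; exact lt_min hκ one_pos
  have hKκ : K ≤ κ := by rw [hK]; exact min_le_left _ _
  have hK1 : K ≤ 1 := by rw [hK]; exact min_le_right _ _
  obtain ⟨c1, hc1, n1, h1⟩ := far_sq.{w} K hK0 hK1
  obtain ⟨c2, hc2, n2, h2⟩ := near_all.{w} K hK0 ⌈1 / K⌉₊
  refine ⟨min c1 c2, lt_min hc1 hc2, max (max n1 n2) 1, ?_⟩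
  intro n n' hn hnn hup G _ f hf hw hw' k hk hkx
  have hs : 0 ≤ Real.sqrt n := Real.sqrt_nonneg _
  have hn1 : 1 ≤ n := (le_max_right _ _).trans hn
  have hn1r : (1 : ℝ) ≤ n := by exact_mod_cast hn1
  have hn0 : (0 : ℝ) ≤ n := by linarith
  have hss : Real.sqrt (Real.sqrt n) ≤ Real.sqrt n := by
    have h3 : 1 ≤ Real.sqrt (n : ℝ) := Real.one_le_sqrt.mpr hn1r
    rw [Real.sqrt_le_left hs]
    have h4 : Real.sqrt (n : ℝ) * 1 ≤ Real.sqrt n * Real.sqrt n :=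
      mul_le_mul_of_nonneg_left h3 hs
    linarith [h4, show Real.sqrt (n : ℝ) * Real.sqrt n = Real.sqrt n ^ 2 by ring]
  have hnnr : (n : ℝ) ≤ n' := by exact_mod_cast hnn.le
  have hKn : K * n ≤ κ * n := mul_le_mul_of_nonneg_right hKκ hn0
  have hKn' : K * n' ≤ κ * n' := mul_le_mul_of_nonneg_right hKκ (by linarith)
  have hKnn : K * n ≤ K * n' := mul_le_mul_of_nonneg_left hnnr hK0.le
  rcases le_total (1 / K) ((n' : ℝ) - n) with hfar | hnear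
  · refine h1 n n' ((le_max_left _ _).trans ((le_max_left _ _).trans hn)) hfar ?_ G f hf
      (fun m m' a b c' d => hw m m' a (by linarith) c' (by linarith))
      (fun m m' a b c' d => hw' m m' a (by linarith) c' (by linarith)) k hk ?_
    · have := mul_le_mul_of_nonneg_right (min_le_left c1 c2) hs
      linarith
    · have hd0 : 0 < (n' : ℝ) - n := lt_of_lt_of_le (by positivity) hfar
      rcases max_choice (Real.sqrt (Real.sqrt (n : ℝ)))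
        (min (Real.sqrt n) (n / ((n' : ℝ) - n) ^ 2)) with hm | hm
      · left
        rw [hm] at hkx
        exact hkx.trans (mul_le_mul_of_nonneg_right (min_le_left _ _) (Real.sqrt_nonneg _))
      · right
        rw [hm] at hkx
        have h3 : min c1 c2 * min (Real.sqrt (n : ℝ)) (n / ((n' : ℝ) - n) ^ 2)
            ≤ c1 * (n / ((n' : ℝ) - n) ^ 2) :=
          mul_le_mul (min_le_left _ _) (min_le_right _ _) (le_min hs (by positivity)) hc1.le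
        have h4 := mul_le_mul_of_nonneg_right (hkx.trans h3)
          (show 0 ≤ ((n' : ℝ) - n) ^ 2 by positivity)
        have h5 : c1 * (n / ((n' : ℝ) - n) ^ 2) * ((n' : ℝ) - n) ^ 2 = c1 * n := by field_simp
        linarith
  · obtain ⟨j, rfl⟩ := Nat.exists_eq_add_of_lt hnn
    have hj : j + 1 ≤ ⌈1 / K⌉₊ := by
      have h3 : ((j + 1 : ℕ) : ℝ) ≤ (⌈1 / K⌉₊ : ℝ) := by
        refine le_trans ?_ (Nat.le_ceil _)
        push_cast at hnear ⊢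
        linarith
      exact_mod_cast h3
    refine h2 (j + 1) (by omega) hj n ((le_max_right _ _).trans ((le_max_left _ _).trans hn))
      G f hf (fun m m' a b c' d => hw m m' a (by linarith) c' (by linarith)) ?_ k hk ?_
    · intro m m' a b c' d
      have e : (n : ℝ) + ((j + 1 : ℕ) : ℝ) = ((n + j + 1 : ℕ) : ℝ) := by push_cast; ring
      rw [e] at a b c' d
      exact hw' m m' a (by linarith) c' (by linarith)
    · have h4 : min c1 c2 * max (Real.sqrt (Real.sqrt n))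
          (min (Real.sqrt n) (n / (((n + j + 1 : ℕ) : ℝ) - n) ^ 2)) ≤ c2 * Real.sqrt n :=
        mul_le_mul (min_le_right _ _) (max_le hss (min_le_left _ _))
          ((Real.sqrt_nonneg _).trans (le_max_left _ _)) hc2.le
      linarith

end Pool.Agent.Helper53.RW
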